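import Pool.Agent.GO3.Bnd
import Pool.Agent.GO3.Ang

/-! GO3 / B / B2: the gradient energy near `0` controls the variation of the average of `h` (B2 of the text).

On the circle of radius `r ≤ s`: `r ∮|∂_r φ|² + (1/r) ∮|D_χ φ|² ≥ 2 (∮|∂_r φ|²)^{1/2} (∮|D_χ φ|²)^{1/2}`
`≥ 2 (1 - t) (∮|∂_r φ|²)^{1/2} (∮|w|²)^{1/2}` (`ang_Xo` with `d = 1 - t`, `dist_small`)
`≥ 2 (1 - t) ∮ |∂_r h|` (`dh_le_w`, Cauchy-Schwarz) `≥ 2 (1 - t) 2π |cc'(r)|` (the circle average of `h` equals the
wedge average, `wedge_circle`). Integrate over `(0, s)`: `polar_ball`, `grad_polar`. -/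

open MeasureTheory Filter Topology Set
open scoped ContDiff Real

noncomputable section

namespace GO3

private theorem b2_er : Continuous er := by
  unfold er
  fun_prop

private theorem b2_dh {n : ℕ} {c : Cf} (hc : c.Adm n) :
    Continuous fun p : ℝ × ℝ => c.dh (pt p.1 p.2) (er p.2) :=
  (Cf.Adm.contDiff_dh hc).continuous.comp (continuous_pt.prodMk (b2_er.comp continuous_snd))

/-- the variation of the average along the rays -/
private theorem b2_cc {n : ℕ} (hn : 0 < n) {c : Cf} (hc : c.Adm n) {s : ℝ} (hs : 0 < s) :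
    2 * π * |c.cc n s - c.cc n 0| ≤
      ∫ r in (0 : ℝ)..s, ∫ χ in (0 : ℝ)..2 * π, |c.dh (pt r χ) (er χ)| := by
  have hα := al_pos hn
  have hpi := Real.pi_pos
  have hn3 : (0 : ℝ) < (n : ℝ) ^ 3 := by
    have : (0 : ℝ) < n := by exact_mod_cast hn
    positivity
  have cdh := b2_dh hc
  have cpt : ∀ r, Continuous fun χ : ℝ => pt r χ := fun r =>
    continuous_pt.comp (by fun_prop : Continuous fun χ : ℝ => (r, χ))
  have ch : ∀ r, Continuous fun χ : ℝ => c.h (pt r χ) := fun r => hc.sh.continuous.comp (cpt r)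
  have cr : ∀ χ, Continuous fun r : ℝ => c.dh (pt r χ) (er χ) := fun χ =>
    cdh.comp (by fun_prop : Continuous fun r : ℝ => (r, χ))
  have cχ : ∀ r, Continuous fun χ : ℝ => c.dh (pt r χ) (er χ) := fun r =>
    cdh.comp (by fun_prop : Continuous fun χ : ℝ => (r, χ))
  have e1 : ∀ χ, c.h (pt s χ) - c.h (pt 0 χ) = ∫ r in (0 : ℝ)..s, c.dh (pt r χ) (er χ) := by
    intro χ
    refine (intervalIntegral.integral_eq_sub_of_hasDerivAt (f := fun r => c.h (pt r χ))
      (f' := fun r => c.dh (pt r χ) (er χ)) (fun r _ => ?_) ((cr χ).intervalIntegrable _ _)).symm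
    exact ((hc.sh.differentiable (by simp)).differentiableAt.hasFDerivAt).comp_hasDerivAt r
      (hasDerivAt_pt_r r χ)
  have e2 : c.cc n s - c.cc n 0 = 1 / al n * ∫ χ in (0 : ℝ)..al n,
      ∫ r in (0 : ℝ)..s, c.dh (pt r χ) (er χ) := by
    unfold Cf.cc
    rw [← mul_sub, ← intervalIntegral.integral_sub ((ch s).intervalIntegrable _ _)
      ((ch 0).intervalIntegrable _ _)]
    congr 1
    exact intervalIntegral.integral_congr fun χ _ => e1 χ
  have e3 : |∫ χ in (0 : ℝ)..al n, ∫ r in (0 : ℝ)..s, c.dh (pt r χ) (er χ)| ≤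
      ∫ χ in (0 : ℝ)..al n, ∫ r in (0 : ℝ)..s, |c.dh (pt r χ) (er χ)| := by
    refine (intervalIntegral.abs_integral_le_integral_abs hα.le).trans ?_
    refine intervalIntegral.integral_mono_on hα.le ?_ ?_ fun χ _ => ?_
    · refine Continuous.intervalIntegrable ?_ _ _
      refine Continuous.abs ?_
      exact intervalIntegral.continuous_parametric_intervalIntegral_of_continuous'
        (f := fun χ r => c.dh (pt r χ) (er χ)) (cdh.comp continuous_swap) _ _
    · refine Continuous.intervalIntegrable ?_ _ _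
      exact intervalIntegral.continuous_parametric_intervalIntegral_of_continuous'
        (f := fun χ r => |c.dh (pt r χ) (er χ)|) (cdh.abs.comp continuous_swap) _ _
    · exact intervalIntegral.abs_integral_le_integral_abs hs.le
  have e4 : (∫ χ in (0 : ℝ)..al n, ∫ r in (0 : ℝ)..s, |c.dh (pt r χ) (er χ)|) =
      ∫ r in (0 : ℝ)..s, ∫ χ in (0 : ℝ)..al n, |c.dh (pt r χ) (er χ)| := by
    refine intervalIntegral_intervalIntegral_swap (F := fun χ r => |c.dh (pt r χ) (er χ)|) ?_
    have h1 : Continuous (Function.uncurry fun χ r : ℝ => |c.dh (pt r χ) (er χ)|) :=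
      cdh.abs.comp continuous_swap
    exact (h1.continuousOn.integrableOn_compact (isCompact_uIcc.prod isCompact_uIcc)).mono_set
      (Set.prod_mono uIoc_subset_uIcc uIoc_subset_uIcc)
  have e5 : ∀ r, (∫ χ in (0 : ℝ)..al n, |c.dh (pt r χ) (er χ)|) =
      1 / (2 * (n : ℝ) ^ 3) * ∫ χ in (0 : ℝ)..2 * π, |c.dh (pt r χ) (er χ)| := by
    intro r
    rw [wedge_circle hn (fun χ => |c.dh (pt r χ) (er χ)|) (cχ r).abs]
    · field_simp
    · intro χ
      show |c.dh (pt r (χ + 2 * al n)) (er (χ + 2 * al n))| = _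
      rw [← ze_mul_pt]
      have h2 : er (χ + 2 * al n) = ze n * er χ := by
        have := ze_mul_pt n 1 χ
        rw [pt_eq, pt_eq, Complex.ofReal_one, one_mul, one_mul] at this
        exact this.symm
      rw [h2, Cf.Adm.dh_rot hc]
    · intro χ
      show |c.dh (pt r (-χ)) (er (-χ))| = _
      rw [← star_pt, ← star_er, Cf.Adm.dh_star hc]
  have e6 : |c.cc n s - c.cc n 0| ≤ 1 / al n * (1 / (2 * (n : ℝ) ^ 3) *
      ∫ r in (0 : ℝ)..s, ∫ χ in (0 : ℝ)..2 * π, |c.dh (pt r χ) (er χ)|) := by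
    rw [e2, abs_mul, abs_of_pos (by positivity : (0 : ℝ) < 1 / al n)]
    refine mul_le_mul_of_nonneg_left (e3.trans ?_) (by positivity)
    rw [e4, ← intervalIntegral.integral_const_mul]
    exact (intervalIntegral.integral_congr fun r _ => e5 r).le
  have e7 : 2 * π * (1 / al n * (1 / (2 * (n : ℝ) ^ 3) *
      ∫ r in (0 : ℝ)..s, ∫ χ in (0 : ℝ)..2 * π, |c.dh (pt r χ) (er χ)|)) =
      ∫ r in (0 : ℝ)..s, ∫ χ in (0 : ℝ)..2 * π, |c.dh (pt r χ) (er χ)| := by
    unfold al
    field_simp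
  rw [← e7]
  exact mul_le_mul_of_nonneg_left e6 (by positivity)

theorem ee_ge {n : ℕ} (hn : 2 ≤ n) {c : Cf} (hc : c.Adm n) (hr : c.Rad) {s t : ℝ} (hs : 0 < s)
    (ht : ∀ r, 0 ≤ r → r ≤ s → |c.beta n r| ≤ t) (h1 : t < 1) :
    2 * π * (1 - t) * |c.cc n s - c.cc n 0| ≤ c.ee 0 s := by
  have hn0 : 0 < n := by omega
  have hpi := Real.pi_pos
  have h2 := b2_cc hn0 hc hs
  have cdh := b2_dh hc
  have hD : Continuous fun r : ℝ => ∫ χ in (0 : ℝ)..2 * π, |c.dh (pt r χ) (er χ)| :=
    intervalIntegral.continuous_parametric_intervalIntegral_of_continuous'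
      (f := fun r χ => |c.dh (pt r χ) (er χ)|) cdh.abs _ _
  have hG : Continuous fun r : ℝ => ∫ χ in (0 : ℝ)..2 * π, c.grad (0 + pt r χ) :=
    continuous_circle c.grad (Cf.Adm.contDiff_grad hc).continuous 0 _ _
  have h3 : ∀ r ∈ Ioo (0 : ℝ) s, (1 - t) * (∫ χ in (0 : ℝ)..2 * π, |c.dh (pt r χ) (er χ)|) ≤
      1 / 2 * (r * ∫ χ in (0 : ℝ)..2 * π, c.grad (0 + pt r χ)) := by
    intro r hr0
    have hr1 : 0 < r := hr0.1
    have h4 := Cf.ang_Xo hn0 hc r (d := 1 - t) (by linarith)
      (fun k => Cf.dist_small hn (ht r hr1.le hr0.2.le) h1 k)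
    have cpt : Continuous fun χ : ℝ => pt r χ :=
      continuous_pt.comp (by fun_prop : Continuous fun χ : ℝ => (r, χ))
    have cχ : Continuous fun χ : ℝ => |c.dh (pt r χ) (er χ)| := by
      have h := ((Cf.Adm.contDiff_dh hc).continuous.comp (cpt.prodMk b2_er)).abs
      exact h
    have cn : Continuous fun χ : ℝ => c.nsq (pt r χ) (er χ) := by
      have h := (Cf.Adm.contDiff_nsq hc).continuous.comp (cpt.prodMk b2_er)
      exact h
    have cw1 : Continuous fun χ : ℝ => ‖c.w (pt r χ)‖ ^ 2 :=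
      ((hc.sw.continuous.comp cpt).norm).pow 2
    have cx : Continuous fun χ : ℝ => c.nsq (pt r χ) (Complex.I * pt r χ) := by
      have h := (Cf.Adm.contDiff_nsq hc).continuous.comp
        (cpt.prodMk (continuous_const (y := Complex.I).mul cpt))
      exact h
    have cx2 : Continuous fun χ : ℝ => c.nsq (pt r χ) (Complex.I * pt r χ) * (r ^ 2)⁻¹ :=
      cx.mul continuous_const
    have cn2 : Continuous fun χ : ℝ => r * c.nsq (pt r χ) (er χ) := continuous_const.mul cn
    have cw2 : Continuous fun χ : ℝ => (1 - t) ^ 2 / r * ‖c.w (pt r χ)‖ ^ 2 :=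
      continuous_const.mul cw1
    have cs : Continuous fun χ : ℝ => 1 / 2 * (r * c.nsq (pt r χ) (er χ) +
        (1 - t) ^ 2 / r * ‖c.w (pt r χ)‖ ^ 2) := continuous_const.mul (cn2.add cw2)
    have cd2 : Continuous fun χ : ℝ => (1 - t) * |c.dh (pt r χ) (er χ)| := continuous_const.mul cχ
    have h5 : r * (∫ χ in (0 : ℝ)..2 * π, c.grad (0 + pt r χ)) =
        r * (∫ χ in (0 : ℝ)..2 * π, c.nsq (pt r χ) (er χ)) + c.Xo r / r := by
      have h6 : (∫ χ in (0 : ℝ)..2 * π, c.grad (0 + pt r χ)) =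
          (∫ χ in (0 : ℝ)..2 * π, c.nsq (pt r χ) (er χ)) + c.Xo r / r ^ 2 := by
        unfold Cf.Xo
        rw [div_eq_mul_inv, ← intervalIntegral.integral_mul_const, ← intervalIntegral.integral_add
          (cn.intervalIntegrable _ _) (cx2.intervalIntegrable _ _)]
        refine intervalIntegral.integral_congr fun χ _ => ?_
        show c.grad (0 + pt r χ) = _
        rw [zero_add, Cf.grad_polar c hr1.ne' χ, div_eq_mul_inv]
      rw [h6]
      field_simp
    have h7 : (1 - t) * (∫ χ in (0 : ℝ)..2 * π, |c.dh (pt r χ) (er χ)|) ≤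
        1 / 2 * (r * (∫ χ in (0 : ℝ)..2 * π, c.nsq (pt r χ) (er χ)) +
          (1 - t) ^ 2 / r * ∫ χ in (0 : ℝ)..2 * π, ‖c.w (pt r χ)‖ ^ 2) := by
      rw [← intervalIntegral.integral_const_mul, ← intervalIntegral.integral_const_mul,
        ← intervalIntegral.integral_const_mul ((1 - t) ^ 2 / r), ← intervalIntegral.integral_add
          (cn2.intervalIntegrable _ _) (cw2.intervalIntegrable _ _),
        ← intervalIntegral.integral_const_mul]
      refine intervalIntegral.integral_mono_on (by positivity)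
        (cd2.intervalIntegrable _ _) (cs.intervalIntegrable _ _) fun χ _ => ?_
      have h8 := Cf.Adm.dh_le_w hc (pt r χ) (er χ)
      have h9 := Cf.nsq_nonneg c (pt r χ) (er χ)
      set N := c.nsq (pt r χ) (er χ)
      set W := ‖c.w (pt r χ)‖ with hW
      have hW0 : 0 ≤ W := norm_nonneg _
      have h10 : |c.dh (pt r χ) (er χ)| ≤ W * Real.sqrt N := by
        rw [← Real.sqrt_sq hW0, ← Real.sqrt_mul (sq_nonneg _), ← Real.sqrt_sq_eq_abs]
        exact Real.sqrt_le_sqrt h8
      have h11 : (1 - t) * (W * Real.sqrt N) ≤ 1 / 2 * (r * N + (1 - t) ^ 2 / r * W ^ 2) := by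
        have h12 : Real.sqrt N ^ 2 = N := Real.sq_sqrt h9
        have h13 := sq_nonneg (r * Real.sqrt N - (1 - t) * W)
        have h14 : 0 ≤ (r * Real.sqrt N - (1 - t) * W) ^ 2 / r := by positivity
        have h15 : (r * Real.sqrt N - (1 - t) * W) ^ 2 / r =
            r * Real.sqrt N ^ 2 - 2 * (1 - t) * (W * Real.sqrt N) + (1 - t) ^ 2 / r * W ^ 2 := by
          field_simp
          ring
        rw [h15, h12] at h14
        linarith
      exact (mul_le_mul_of_nonneg_left h10 (by linarith)).trans h11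
    refine h7.trans ?_
    rw [h5]
    have h16 : (1 - t) ^ 2 / r * (∫ χ in (0 : ℝ)..2 * π, ‖c.w (pt r χ)‖ ^ 2) ≤ c.Xo r / r := by
      rw [div_mul_eq_mul_div]
      refine div_le_div_of_nonneg_right ?_ hr1.le
      rw [le_div_iff₀ (by have : 0 < 1 - t := by linarith
                          positivity)] at h4
      linarith
    linarith
  have h4 : (1 - t) * (∫ r in (0 : ℝ)..s, ∫ χ in (0 : ℝ)..2 * π, |c.dh (pt r χ) (er χ)|) ≤
      c.ee 0 s := by
    unfold Cf.ee
    rw [polar_ball c.grad (Cf.Adm.contDiff_grad hc).continuous 0 hs.le,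
      ← intervalIntegral.integral_const_mul, ← intervalIntegral.integral_const_mul]
    have hD2 : Continuous fun r : ℝ => (1 - t) * ∫ χ in (0 : ℝ)..2 * π, |c.dh (pt r χ) (er χ)| :=
      continuous_const.mul hD
    have hG2 : Continuous fun r : ℝ => 1 / 2 * (r * ∫ χ in (0 : ℝ)..2 * π, c.grad (0 + pt r χ)) :=
      continuous_const.mul (continuous_id.mul hG)
    exact intervalIntegral.integral_mono_on_of_le_Ioo hs.le
      (hD2.intervalIntegrable _ _) (hG2.intervalIntegrable _ _) h3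
  have h5 := mul_le_mul_of_nonneg_left h2 (by linarith : (0 : ℝ) ≤ 1 - t)
  nlinarith [h4, h5]

end GO3
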