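import Pool.Agent.GO3.B.AltOf
import Pool.Agent.GO3.L.Lim

/-! GO3 / B / Alt: the alternative (helper30). -/

noncomputable section

namespace GO3

open Real

theorem alternative (K : ℝ) (hK : 1 ≤ K) : ∃ n₀ : ℕ, 2 ≤ n₀ ∧ ∀ n : ℕ, n₀ ≤ n →
    ∀ σ : ℝ, (σ = 1 ∨ σ = -1) → ∀ c₀ : Cf, c₀.Cls n σ → c₀.E < K * n ^ 2 →
    (∃ c : Cf, c.Mini n σ ∧ c.EL) ∨
    (∀ ε : ℝ, 0 < ε → ∀ c : Cf, c.Cls n σ → ∃ c' : Cf, c'.Cls n (-σ) ∧ c'.E ≤ c.E - 4 * π + ε) :=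
  alternative_of K hK (limit K hK)

end GO3
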