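import Pool.Agent.GO3.B.One
import Pool.Agent.GO3.B.B2

/-!
# GO3 / B / AltOf: the alternative, given the limit theorem (helper30)
-/

open MeasureTheory Filter Topology Set
open scoped ContDiff Real

noncomputable section

namespace GO3

/-- The statement of the limit theorem (part L). -/
def LimSt (K : ℝ) : Prop := ∃ n₀ : ℕ, 2 ≤ n₀ ∧ ∀ n : ℕ, n₀ ≤ n → ∀ σ : ℝ, (σ = 1 ∨ σ = -1) →
  ∀ r₀ : ℝ, 0 < r₀ → ∀ (c : ℕ → Cf) (δ : ℕ → ℝ), Tendsto δ atTop (𝓝 0) → (∀ k, 0 ≤ δ k) →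
    (∀ k, (c k).Alm K n σ (δ k)) → (∀ k, (c k).ee 0 r₀ ≤ 1 / 100000) →
    ∃ c' : Cf, c'.Mini n σ ∧ c'.EL ∧ c'.E ≤ K * n ^ 2

theorem alternative_of (K : ℝ) (hK : 1 ≤ K) (hlim : LimSt K) : ∃ n₀ : ℕ, 2 ≤ n₀ ∧ ∀ n : ℕ, n₀ ≤ n →
    ∀ σ : ℝ, (σ = 1 ∨ σ = -1) → ∀ c₀ : Cf, c₀.Cls n σ → c₀.E < K * n ^ 2 →
    (∃ c : Cf, c.Mini n σ ∧ c.EL) ∨
    (∀ ε : ℝ, 0 < ε → ∀ c : Cf, c.Cls n σ → ∃ c' : Cf, c'.Cls n (-σ) ∧ c'.E ≤ c.E - 4 * π + ε) := by
  obtain ⟨n₀, h2, hl⟩ := hlim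
  refine ⟨n₀, h2, fun n hn σ hσ c₀ hc₀ hE => ?_⟩
  have hn2 : 2 ≤ n := h2.trans hn
  have hn0 : 0 < n := by omega
  -- the infimum
  set S : Set ℝ := {x | ∃ c : Cf, c.Cls n σ ∧ c.E = x} with hS
  have hSne : S.Nonempty := ⟨c₀.E, c₀, hc₀, rfl⟩
  have hSbd : BddBelow S := ⟨0, by rintro x ⟨c, hc, rfl⟩; exact Cf.Adm.E_nonneg c⟩
  have hI : ∀ c : Cf, c.Cls n σ → sInf S ≤ c.E := fun c hc => csInf_le hSbd ⟨c, hc, rfl⟩
  set d : ℝ := K * n ^ 2 - c₀.E with hd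
  have hdpos : 0 < d := by rw [hd]; linarith
  have hδ : ∀ k : ℕ, 0 < d / ((k : ℝ) + 1) := fun k => by positivity
  have hδd : ∀ k : ℕ, d / ((k : ℝ) + 1) ≤ d := fun k => by
    apply div_le_self hdpos.le
    have : (0 : ℝ) ≤ k := Nat.cast_nonneg k
    linarith
  have hex : ∀ k : ℕ, ∃ c : Cf, c.Cls n σ ∧ c.Rad ∧ c.E ≤ sInf S + d / ((k : ℝ) + 1) := by
    intro k
    obtain ⟨x, ⟨c, hc, rfl⟩, hx⟩ := exists_lt_of_csInf_lt hSne
      (show sInf S < sInf S + d / ((k : ℝ) + 1) by linarith [hδ k])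
    obtain ⟨om, hom, hrad⟩ := Cf.exists_rad hn0 hc.1
    refine ⟨c.gt om, Cf.gt_cls hn0 hom hc, hrad, ?_⟩
    rw [Cf.gt_E hom.s hc.1.sw hc.1.sA]
    exact hx.le
  choose c hcC hcR hcE using hex
  have hEK : ∀ k, (c k).E ≤ K * n ^ 2 := fun k => by
    have h1 := hcE k
    have h3 := hI c₀ hc₀
    have h4 := hδd k
    rw [hd] at h4 h1
    linarith
  have hAlm : ∀ k, (c k).Alm K n σ (d / ((k : ℝ) + 1)) := fun k =>
    ⟨hcC k, hcR k, hEK k, fun c' hc' => by linarith [hcE k, hI c' hc']⟩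
  have htend : Tendsto (fun k : ℕ => d / ((k : ℝ) + 1)) atTop (𝓝 0) := by
    have := (tendsto_one_div_add_atTop_nhds_zero_nat (𝕜 := ℝ)).const_mul d
    simpa [div_eq_mul_inv] using this
  by_cases H : ∃ r₀ : ℝ, 0 < r₀ ∧ ∃ᶠ k in atTop, (c k).ee 0 r₀ ≤ 1 / 100000
  · left
    obtain ⟨r₀, hr₀, hfr⟩ := H
    obtain ⟨φ, hφ, hφ'⟩ := extraction_of_frequently_atTop hfr
    obtain ⟨c', h1, h3, -⟩ := hl n hn σ hσ r₀ hr₀ (fun k => c (φ k)) (fun k => d / ((φ k : ℝ) + 1))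
      (htend.comp hφ.tendsto_atTop) (fun k => (hδ (φ k)).le) (fun k => hAlm (φ k)) hφ'
    exact ⟨c', h1, h3⟩
  · right
    intro ε hε c₁ hc₁
    push Not at H
    set ε₁ : ℝ := min (ε / 64) (1 / 400000) with hε₁
    have he0 : 0 < ε₁ := lt_min (by positivity) (by norm_num)
    have he1 : ε₁ ≤ ε / 64 := min_le_left _ _
    have he2 : ε₁ ≤ 1 / 400000 := min_le_right _ _
    obtain ⟨r, hr0, hr1, hstep⟩ := Cap.onestep K hK n hn2 ε₁ he0
    have hev1 : ∀ᶠ k in atTop, 1 / 100000 < (c k).ee 0 (r ^ 2) := H (r ^ 2) (by positivity)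
    have hev2 : ∀ᶠ k : ℕ in atTop, d / ((k : ℝ) + 1) < ε₁ := htend.eventually (gt_mem_nhds he0)
    obtain ⟨k, hk1, hk2⟩ := (hev1.and hev2).exists
    obtain ⟨s, hs, σ', hσ', hcc, hβ, c', hA', hAA, hZ, hh, hE'⟩ :=
      hstep (c k) (hcC k).1 (hcR k) (hEK k)
    have hs0 : 0 < s := lt_of_lt_of_le (by positivity) hs.1
    have hmono : (c k).ee 0 (r ^ 2) ≤ (c k).ee 0 s := Cap.ee_mono (hcC k).1 0 hs.1
    have hW : c'.Wind n := by
      rw [wind_iff]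
      exact Wd_congr hZ ((wind_iff _ _).1 (hcC k).2.1)
    have hcls : c'.Cls n σ' := ⟨hA', hW, hh⟩
    by_cases hσσ : σ' = σ
    · exfalso
      rw [hσσ] at hcls
      have h1 := (hAlm k).2.2.2 c' hcls
      linarith
    · have hneg : σ' = -σ := by
        rcases hσ with h | h <;> rcases hσ' with h' | h'
        · exact absurd (h'.trans h.symm) hσσ
        · rw [h, h']
        · rw [h, h']; norm_num
        · exact absurd (h'.trans h.symm) hσσ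
      rw [hneg] at hcls hcc
      refine ⟨c', hcls, ?_⟩
      have hcc0 : (c k).cc n 0 = σ := by
        rw [(Cf.data_zero hn2 (hcC k).1).2.2.1, (hcC k).2.2]
      have hge := ee_ge hn2 (hcC k).1 (hcR k) hs0 hβ (by linarith)
      have hdiff : 2 - ε₁ ≤ |(c k).cc n s - (c k).cc n 0| := by
        rw [hcc0]
        have h1 : |(c k).cc n s + σ| ≤ ε₁ := by
          have : (c k).cc n s - -σ = (c k).cc n s + σ := by ring
          rwa [this] at hcc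
        have h2 : |2 * σ| = 2 := by
          rcases hσ with h | h <;> rw [h] <;> norm_num
        have h3 : |2 * σ| ≤ |(c k).cc n s + σ| + |(c k).cc n s - σ| := by
          have h4 : 2 * σ = ((c k).cc n s + σ) - ((c k).cc n s - σ) := by ring
          rw [h4]
          exact abs_sub _ _
        linarith
      have hπ4 : π ≤ 4 := Real.pi_le_four
      have hπ0 : 0 < π := Real.pi_pos
      have hlow : 4 * π - 24 * ε₁ ≤ (c k).ee 0 s := by
        have h1 : 2 * π * (1 - ε₁) * (2 - ε₁) ≤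
            2 * π * (1 - ε₁) * |(c k).cc n s - (c k).cc n 0| :=
          mul_le_mul_of_nonneg_left hdiff (by
            have : 0 ≤ 1 - ε₁ := by linarith
            positivity)
        have h3 : 4 * π - 24 * ε₁ ≤ 2 * π * (1 - ε₁) * (2 - ε₁) := by
          have h4 : 2 * π * (1 - ε₁) * (2 - ε₁) = 4 * π - 6 * π * ε₁ + 2 * π * ε₁ ^ 2 := by ring
          rw [h4]
          nlinarith [mul_pos hπ0 he0, mul_nonneg hπ0.le (sq_nonneg ε₁)]
        linarith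
      have h5 := hcE k
      have h6 := hI c₁ hc₁
      linarith

end GO3
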