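import Pool.Agent.GO3.B.CapE
import Pool.Agent.GO3.Stp

/-!
# GO3 / B / Cap: existence of the cap (helper30)

PROOF.  Fix `a, τ` from `step` with `ε = 1` (`deriv τ ≤ 2`); the constant is `C = 8 + 10/a + 7` (any constant, depending only on `a`).
Given the configuration, `s`, `σ` and `ε > 0`: the functions `(ρ, χ) ↦ ‖w (pt ρ χ)‖²`, `(ρ, χ) ↦ σ h (pt ρ χ)` are continuous and
`2π`-periodic in `χ`; on `ρ = s` they satisfy `≤ 1/4`, `> 0`; by compactness (`[0, 2π]`, tube lemma, or: the complement of the open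
set `{z | ‖w z‖² < 1/2 ∧ 0 < σ h z}` and the circle `sphere 0 s` are disjoint, closed and compact, so have positive distance:
`IsCompact.exists_thickening_subset_open`, `IsCompact.exists_cthickening_subset_open`) there is `e₀ > 0` with `near` for `e ≤ e₀`;
a point `z` with `|‖z‖ - s| ≤ e` has distance `≤ e` from `s z / ‖z‖`.  `P ρ = ∫ ‖w (pt ρ χ)‖²` and `Xo` are continuous
(`continuous_circle`; `Xo_eq` and `contDiff_X`), so `P ρ ≤ P s + ε'`, `Xo ρ ≤ Xo s + ε'` on `[s - e, s]` for small `e`.  `L`: bound of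
`‖fderiv ℝ c.w z‖` on `closedBall 0 s` (`‖er χ‖ = 1`).  Choose `e` so that also `16 π e s L² ≤ ε'`, `2 e < s`, and `ε'` so that
the error terms `8 ε' + (2/a) ε' + ε'/2 ≤ ε`.  `κ` from `frz`.  Conclude with `cap_E`, `cap_adm`, `cap_out`, `cap_zero`.
-/

open MeasureTheory Filter Topology Set
open scoped ContDiff Real

noncomputable section

namespace GO3.Cap

private theorem near_aux {c : Cf} {n : ℕ} (hc : c.Adm n) {s σ : ℝ} (hs : 0 < s)
    (hw : ∀ χ, ‖c.w (pt s χ)‖ ≤ 1 / 2) (hh : ∀ χ, 0 < σ * c.h (pt s χ)) :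
    ∃ e₀ : ℝ, 0 < e₀ ∧ ∀ e, e < e₀ → e < s → ∀ z : ℂ, s - e ≤ ‖z‖ → ‖z‖ ≤ s + e →
      ‖c.w z‖ ^ 2 ≤ 1 / 2 ∧ 0 < σ * c.h z := by
  set U : Set ℂ := {z | ‖c.w z‖ ^ 2 < 1 / 2 ∧ 0 < σ * c.h z} with hU
  have oU : IsOpen U := by
    have h1 : IsOpen {z : ℂ | ‖c.w z‖ ^ 2 < 1 / 2} :=
      isOpen_lt (hc.sw.continuous.norm.pow 2) continuous_const
    have h2 : IsOpen {z : ℂ | 0 < σ * c.h z} :=
      isOpen_lt continuous_const (continuous_const.mul hc.sh.continuous)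
    exact h1.inter h2
  have hK : Metric.sphere (0 : ℂ) s ⊆ U := by
    intro z hz
    rw [mem_sphere_zero_iff_norm] at hz
    obtain ⟨χ, -, h1⟩ := exists_pt z
    rw [hz] at h1
    rw [h1]
    refine ⟨?_, hh χ⟩
    have h2 := hw χ
    have h3 := norm_nonneg (c.w (pt s χ))
    nlinarith
  obtain ⟨δ, hδ, hsub⟩ := (isCompact_sphere (0 : ℂ) s).exists_cthickening_subset_open oU hK
  refine ⟨δ, hδ, fun e he hes z h1 h2 => ?_⟩
  have hz0 : 0 < ‖z‖ := by linarith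
  have hz : z ≠ 0 := norm_pos_iff.1 hz0
  have hm : z ∈ Metric.cthickening δ (Metric.sphere (0 : ℂ) s) := by
    have hy : ((s / ‖z‖ : ℝ) : ℂ) * z ∈ Metric.sphere (0 : ℂ) s := by
      rw [mem_sphere_zero_iff_norm, norm_mul, Complex.norm_real, Real.norm_of_nonneg (by positivity)]
      field_simp
    refine Metric.mem_cthickening_of_dist_le z _ δ _ hy ?_
    rw [dist_eq_norm]
    have e1 : z - ((s / ‖z‖ : ℝ) : ℂ) * z = ((1 - s / ‖z‖ : ℝ) : ℂ) * z := by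
      push_cast
      ring
    rw [e1, norm_mul, Complex.norm_real, Real.norm_eq_abs]
    have e2 : |1 - s / ‖z‖| * ‖z‖ = |‖z‖ - s| := by
      have e3 : 1 - s / ‖z‖ = (‖z‖ - s) / ‖z‖ := by field_simp
      rw [e3, abs_div, abs_of_pos hz0]
      field_simp
    rw [e2, abs_le]
    constructor <;> linarith
  have h3 := hsub hm
  exact ⟨h3.1.le, h3.2⟩

theorem cap_exists : ∃ C : ℝ, 1 ≤ C ∧ ∀ (n : ℕ), 2 ≤ n → ∀ c : Cf, c.Adm n → c.Rad → ∀ s : ℝ, 0 < s →
    ∀ σ : ℝ, (σ = 1 ∨ σ = -1) → (∀ χ, ‖c.w (pt s χ)‖ ≤ 1 / 2) → (∀ χ, 0 < σ * c.h (pt s χ)) →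
    ∀ ε : ℝ, 0 < ε → ∃ c' : Cf, c'.Adm n ∧ c'.A = c.A ∧
      (∀ z, s ≤ ‖z‖ → c'.w z = c.w z ∧ c'.h z = c.h z) ∧ c'.h 0 = σ ∧
      c'.E ≤ c.E - c.ee 0 s +
        C * ((∫ χ in (0 : ℝ)..2 * π, ‖c.w (pt s χ)‖ ^ 2) + c.Xo s + s ^ 2 * (c.E + 1)) + ε := by
  obtain ⟨a, ha, ha4, -, τ, τs, τ0, τ1, τb, τd⟩ := step (ε := 1) one_pos
  refine ⟨15 + 10 / a, by have : 0 < 10 / a := by positivity
                          linarith, ?_⟩
  intro n hn c hc hr s hs σ hσ hw hh ε hε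
  have hpi := Real.pi_pos
  have hpi4 := Real.pi_lt_four
  have hpi3 := Real.pi_lt_d2
  obtain ⟨e₀, he₀, hnear⟩ := near_aux hc hs hw hh
  -- small error
  set ε' : ℝ := ε / (9 + 2 / a) with hε'
  have hden : 0 < 9 + 2 / a := by positivity
  have hε'0 : 0 < ε' := div_pos hε hden
  have hε'1 : (9 + 2 / a) * ε' = ε := by
    rw [hε']
    field_simp
  -- continuity of the two circle integrals
  set P : ℝ → ℝ := fun ρ => ∫ χ in (0 : ℝ)..2 * π, ‖c.w (pt ρ χ)‖ ^ 2 with hP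
  have cP : Continuous P := by
    have h1 := continuous_circle (fun z => ‖c.w z‖ ^ 2) (hc.sw.continuous.norm.pow 2) 0 0 (2 * π)
    simpa only [zero_add] using h1
  have cX : Continuous c.Xo := by
    have h1 : c.Xo = fun r => 2 * (n : ℝ) ^ 3 * c.X n r := by
      funext r
      exact Cf.Xo_eq (by omega) hc r
    rw [h1]
    exact continuous_const.mul (Cf.contDiff_X hc)
  obtain ⟨δ1, hδ1, hP1⟩ := Metric.continuousAt_iff.1 (cP.continuousAt (x := s)) ε' hε'0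
  obtain ⟨δ2, hδ2, hX1⟩ := Metric.continuousAt_iff.1 (cX.continuousAt (x := s)) ε' hε'0
  -- bound of the derivative
  obtain ⟨L₀, hL₀⟩ := (isCompact_closedBall (0 : ℂ) s).exists_bound_of_continuousOn
    (hc.sw.continuous_fderiv (by simp)).continuousOn
  set L : ℝ := max L₀ 0 with hL
  -- choice of `e`
  set m : ℝ := min (min (e₀ / 2) (s / 4)) (min (min (δ1 / 2) (δ2 / 2))
    (ε' / (8 * π * s * L ^ 2 + 1))) with hm
  have hK0 : 0 < 8 * π * s * L ^ 2 + 1 := by positivity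
  have hm0 : 0 < m := by
    rw [hm]
    refine lt_min (lt_min (by linarith) (by linarith)) (lt_min (lt_min (by linarith) (by linarith)) ?_)
    positivity
  have m1 : m ≤ e₀ / 2 := (min_le_left _ _).trans (min_le_left _ _)
  have m2 : m ≤ s / 4 := (min_le_left _ _).trans (min_le_right _ _)
  have m3 : m ≤ δ1 / 2 := ((min_le_right _ _).trans (min_le_left _ _)).trans (min_le_left _ _)
  have m4 : m ≤ δ2 / 2 := ((min_le_right _ _).trans (min_le_left _ _)).trans (min_le_right _ _)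
  have m5 : m ≤ ε' / (8 * π * s * L ^ 2 + 1) := (min_le_right _ _).trans (min_le_right _ _)
  have hes : 2 * m < s := by linarith
  obtain ⟨κ, κs, κ1, κ0, κb, κd⟩ := frz hm0 hes
  have D : Dat c n s σ m a τ κ := {
    hn := hn
    adm := hc
    rad := hr
    hs := hs
    hσ := hσ
    he := hm0
    hes := hes
    ha := ha
    ha' := ha4
    τs := τs
    τ0 := τ0
    τ1 := τ1
    τb := τb
    τd := fun x => ⟨(τd x).1, by linarith [(τd x).2]⟩
    κs := κs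
    κ1 := κ1
    κ0 := κ0
    κb := κb
    κd := κd
    near := hnear m (by linarith) (by linarith) }
  have b1 : ∀ ρ ∈ Icc (s - m) s, ∫ χ in (0 : ℝ)..2 * π, ‖c.w (pt ρ χ)‖ ^ 2 ≤ P s + ε' := by
    intro ρ hρ
    have h1 : dist ρ s < δ1 := by
      rw [Real.dist_eq, abs_lt]
      constructor <;> linarith [hρ.1, hρ.2]
    have h2 := hP1 h1
    rw [Real.dist_eq, abs_lt] at h2
    have h3 : P ρ ≤ P s + ε' := by linarith [h2.2]
    exact h3
  have b2 : ∀ ρ ∈ Icc (s - m) s, c.Xo ρ ≤ c.Xo s + ε' := by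
    intro ρ hρ
    have h1 : dist ρ s < δ2 := by
      rw [Real.dist_eq, abs_lt]
      constructor <;> linarith [hρ.1, hρ.2]
    have h2 := hX1 h1
    rw [Real.dist_eq, abs_lt] at h2
    linarith [h2.2]
  have b3 : ∀ ρ ∈ Icc (s - m) s, ∀ χ, ‖fderiv ℝ c.w (pt ρ χ) (er χ)‖ ≤ L := by
    intro ρ hρ χ
    have h1 : pt ρ χ ∈ Metric.closedBall (0 : ℂ) s := by
      rw [mem_closedBall_zero_iff, norm_pt, abs_of_nonneg (by linarith [hρ.1])]
      exact hρ.2
    have h2 := (fderiv ℝ c.w (pt ρ χ)).le_opNorm (er χ)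
    rw [norm_er, mul_one] at h2
    exact h2.trans ((hL₀ _ h1).trans (le_max_left _ _))
  have hE := D.cap_E b1 b2 b3
  refine ⟨cap c s σ τ κ, D.cap_adm, rfl, fun z hz => D.cap_out hz, D.cap_zero, hE.trans ?_⟩
  have n1 : 0 ≤ P s := intervalIntegral.integral_nonneg (by positivity) fun χ _ => by positivity
  have n2 : 0 ≤ c.Xo s :=
    intervalIntegral.integral_nonneg (by positivity) fun χ _ => Cf.nsq_nonneg c _ _
  have n3 : 0 ≤ c.E := Cf.Adm.E_nonneg c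
  have t1 : 8 * π * m * s * L ^ 2 ≤ ε' := by
    have h1 : m * (8 * π * s * L ^ 2 + 1) ≤ ε' := (le_div_iff₀ hK0).1 m5
    have h2 : 8 * π * m * s * L ^ 2 = m * (8 * π * s * L ^ 2) := by ring
    rw [h2]
    linarith
  have hs2 : 0 < s ^ 2 := by positivity
  have ia : 0 < 1 / a := by positivity
  have e1 : 10 / a = 10 * (1 / a) := by ring
  have e2 : 2 / a = 2 * (1 / a) := by ring
  have t2 : 2 * π * s ^ 2 ≤ 7 * s ^ 2 := by nlinarith
  have k1 : 0 ≤ s ^ 2 * c.E := by positivity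
  rw [e2] at hε'1 ⊢
  rw [e1]
  set ia' : ℝ := 1 / a
  have q1 : 0 ≤ ia' * P s := by positivity
  have q2 : 0 ≤ ia' * c.Xo s := by positivity
  have q3 : 0 ≤ ia' * (s ^ 2 * c.E) := by positivity
  have q4 : 0 ≤ ia' * s ^ 2 := by positivity
  have q5 : P s = ∫ χ in (0 : ℝ)..2 * π, ‖c.w (pt s χ)‖ ^ 2 := rfl
  rw [← q5]
  nlinarith

end GO3.Cap
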