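import Pool.Agent.GO3.B.Pm
import Pool.Agent.GO3.Rd

/-!
# GO3 / B / CapA: the capped configuration (helper30)

Inside the disc of radius `s` the configuration is replaced by the constant `(0, σ)`, through a polar interpolation:
`w' = pm (τ (· / s)) κ w`, `h' = σ √(1 - |w'|²)` for `|z| < s`, `h' = h` for `|z| ≥ s`; same potential.

PROOFS (`D : Dat ...` below).
* `capW_out`: `pm_out` (`z ≠ 0`).  `capW_sq_le`: for `s ≤ ‖z‖ < s + e` by `capW_out` and `D.near`; for `0 < ‖z‖ < s` by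
  `norm_pm_le` and `D.near` at the point `κ ‖z‖ z / ‖z‖` of norm in `[s - e, s]`; for `z = 0` it is zero (`pm_zero`).
* `capH_eq`: for `s ≤ ‖z‖ < s + e`: `h² = 1 - ‖w‖²` and `σ h > 0`, so `h = σ √(1 - ‖w‖²)`.
* `cap_adm`: `h'` is smooth: on the open set `‖z‖ < s + e` it is `σ √(1 - ‖capW z‖²)` with `1 - ‖capW‖² ≥ 1/2`
  (`Real.contDiffAt_sqrt`, `contDiff_norm_sq`), on the open set `‖z‖ > s` it is `h`.  `unit`: direct.  `rw`, `rh`, `rA`: `pm_rot`
  (`‖ζ z‖ = ‖z‖`); `cw`, `ch`, `cA`: `pm_star`.  `fin`: `dens` is continuous and equal to `c.dens` for `‖z‖ > s` (the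
  derivatives agree on the open set), so integrable (continuous on the compact `closedBall 0 s`).
* `cap_dens_out`: on the open set `‖z‖ > s` everything agrees.
* `cap_zero`: `τ 0 = 0`, so `capW 0 = 0`.
-/

open MeasureTheory Filter Topology Set
open scoped ContDiff Real

noncomputable section

namespace GO3.Cap

/-- the data of a cap -/
structure Dat (c : Cf) (n : ℕ) (s σ e a : ℝ) (τ κ : ℝ → ℝ) : Prop where
  hn : 2 ≤ n
  adm : c.Adm n
  rad : c.Rad
  hs : 0 < s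
  hσ : σ = 1 ∨ σ = -1
  he : 0 < e
  hes : 2 * e < s
  ha : 0 < a
  ha' : a < 1 / 4
  τs : ContDiff ℝ ∞ τ
  τ0 : ∀ x, x ≤ a → τ x = 0
  τ1 : ∀ x, 1 - a ≤ x → τ x = 1
  τb : ∀ x, 0 ≤ τ x ∧ τ x ≤ 1
  τd : ∀ x, 0 ≤ deriv τ x ∧ deriv τ x ≤ 2
  κs : ContDiff ℝ ∞ κ
  κ1 : ∀ x, s ≤ x → κ x = x
  κ0 : ∀ x, x ≤ s - 2 * e → κ x = s - e
  κb : ∀ x, x ≤ s → s - e ≤ κ x ∧ κ x ≤ s
  κd : ∀ x, 0 ≤ deriv κ x ∧ deriv κ x ≤ 1
  near : ∀ z : ℂ, s - e ≤ ‖z‖ → ‖z‖ ≤ s + e → ‖c.w z‖ ^ 2 ≤ 1 / 2 ∧ 0 < σ * c.h z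

/-- the new first component -/
def capW (c : Cf) (s : ℝ) (τ κ : ℝ → ℝ) : ℂ → ℂ := pm (fun x => τ (x / s)) κ c.w

/-- the capped configuration -/
def cap (c : Cf) (s σ : ℝ) (τ κ : ℝ → ℝ) : Cf where
  w := capW c s τ κ
  h := fun z => if ‖z‖ < s then σ * Real.sqrt (1 - ‖capW c s τ κ z‖ ^ 2) else c.h z
  A := c.A

variable {c : Cf} {n : ℕ} {s σ e a : ℝ} {τ κ : ℝ → ℝ}

private theorem dens_cont {c : Cf} (hw : ContDiff ℝ ∞ c.w) (hh : ContDiff ℝ ∞ c.h)
    (hA : ContDiff ℝ ∞ c.A) : Continuous c.dens := by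
  have f1 : ∀ v : ℂ, Continuous fun z => fderiv ℝ c.w z v := fun v =>
    (hw.continuous_fderiv (by simp)).clm_apply continuous_const
  have f2 : ∀ v : ℂ, Continuous fun z => fderiv ℝ c.h z v := fun v =>
    (hh.continuous_fderiv (by simp)).clm_apply continuous_const
  have f3 : ∀ v : ℂ, Continuous fun z => fderiv ℝ c.A z v := fun v =>
    (hA.continuous_fderiv (by simp)).clm_apply continuous_const
  have cw := hw.continuous
  have ch := hh.continuous
  have cA := hA.continuous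
  have f4 : ∀ v : ℂ, Continuous fun z => c.Dw z v := by
    intro v
    unfold Cf.Dw ip
    have := f1 v
    fun_prop
  have f5 : ∀ v : ℂ, Continuous fun z => c.nsq z v := by
    intro v
    unfold Cf.nsq Cf.dh
    exact ((f4 v).norm.pow 2).add ((f2 v).pow 2)
  unfold Cf.dens Cf.grad Cf.F
  have g1 := f5 1
  have g2 := f5 Complex.I
  have g3 := f3 1
  have g4 := f3 Complex.I
  exact ((g1.add g2).add ((continuous_const.sub ch).pow 2)).add
    (((Complex.continuous_im.comp g3).sub (Complex.continuous_re.comp g4)).pow 2)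

private theorem sig_sq (D : Dat c n s σ e a τ κ) : σ ^ 2 = 1 := by
  rcases D.hσ with h | h <;> rw [h] <;> norm_num

private theorem tau_zero (D : Dat c n s σ e a τ κ) : τ (‖(0 : ℂ)‖ / s) = 0 := by
  rw [norm_zero, zero_div]
  exact D.τ0 0 D.ha.le

theorem Dat.capW_smooth (D : Dat c n s σ e a τ κ) : ContDiff ℝ ∞ (capW c s τ κ) := by
  refine pm_smooth (a := a * s) (D.τs.comp (contDiff_id.div_const s)) D.κs D.adm.sw
    (mul_pos D.ha D.hs) fun x hx => ?_
  exact D.τ0 _ ((div_le_iff₀ D.hs).2 hx)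

theorem Dat.capW_pt (D : Dat c n s σ e a τ κ) {r : ℝ} (hr : 0 < r) (χ : ℝ) :
    capW c s τ κ (pt r χ) = (τ (r / s) : ℂ) * c.w (pt (κ r) χ) :=
  pm_pt hr

theorem Dat.capW_out (D : Dat c n s σ e a τ κ) {z : ℂ} (hz : s ≤ ‖z‖) : capW c s τ κ z = c.w z := by
  have h0 : z ≠ 0 := by
    intro h
    rw [h, norm_zero] at hz
    linarith [D.hs]
  refine pm_out h0 (D.τ1 _ ?_) (D.κ1 _ hz)
  have h1 : 1 ≤ ‖z‖ / s := (one_le_div D.hs).2 hz
  linarith [D.ha]

theorem Dat.capW_sq_le (D : Dat c n s σ e a τ κ) {z : ℂ} (hz : ‖z‖ < s + e) :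
    ‖capW c s τ κ z‖ ^ 2 ≤ 1 / 2 := by
  rcases le_or_gt s ‖z‖ with h | h
  · rw [D.capW_out h]
    exact (D.near z (by linarith [D.he]) hz.le).1
  · by_cases h0 : z = 0
    · rw [h0]
      have h1 : capW c s τ κ 0 = 0 := pm_zero (tau_zero D)
      rw [h1]
      norm_num
    · obtain ⟨h1, h2⟩ := norm_pm_le (τ := fun x => τ (x / s)) (κ := κ) (f := c.w) (z := z)
        (fun x => D.τb _) h0
      have h3 := D.κb _ h.le
      have h4 : 0 < κ ‖z‖ := by linarith [D.hes, D.he]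
      rw [abs_of_pos h4] at h2
      have h5 := (D.near _ (by rw [h2]; exact h3.1) (by rw [h2]; linarith [D.he])).1
      refine le_trans ?_ h5
      exact pow_le_pow_left₀ (norm_nonneg _) h1 2

theorem Dat.capH_eq (D : Dat c n s σ e a τ κ) {z : ℂ} (hz : ‖z‖ < s + e) :
    (cap c s σ τ κ).h z = σ * Real.sqrt (1 - ‖capW c s τ κ z‖ ^ 2) := by
  rcases le_or_gt s ‖z‖ with h | h
  · have h1 : (cap c s σ τ κ).h z = c.h z := if_neg (not_lt.2 h)
    rw [h1, D.capW_out h]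
    have h2 := (D.near z (by linarith [D.he]) hz.le).2
    have h3 : 1 - ‖c.w z‖ ^ 2 = c.h z ^ 2 := by linarith [D.adm.unit z]
    rw [h3, Real.sqrt_sq_eq_abs]
    rcases D.hσ with h4 | h4
    · rw [h4] at h2 ⊢
      rw [one_mul] at h2
      rw [abs_of_pos h2, one_mul]
    · rw [h4] at h2 ⊢
      have h5 : c.h z < 0 := by linarith
      rw [abs_of_neg h5]
      ring
  · exact if_pos h

theorem Dat.cap_out (D : Dat c n s σ e a τ κ) {z : ℂ} (hz : s ≤ ‖z‖) :
    (cap c s σ τ κ).w z = c.w z ∧ (cap c s σ τ κ).h z = c.h z :=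
  ⟨D.capW_out hz, if_neg (not_lt.2 hz)⟩

theorem Dat.cap_dens_out (D : Dat c n s σ e a τ κ) {z : ℂ} (hz : s < ‖z‖) :
    (cap c s σ τ κ).dens z = c.dens z := by
  have hU : {y : ℂ | s < ‖y‖} ∈ 𝓝 z := (isOpen_lt continuous_const continuous_norm).mem_nhds hz
  have e1 : (cap c s σ τ κ).w =ᶠ[𝓝 z] c.w := by
    filter_upwards [hU] with y hy
    exact (D.cap_out (le_of_lt hy)).1
  have e2 : (cap c s σ τ κ).h =ᶠ[𝓝 z] c.h := by
    filter_upwards [hU] with y hy
    exact (D.cap_out (le_of_lt hy)).2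
  have e3 : (cap c s σ τ κ).A = c.A := rfl
  unfold Cf.dens Cf.grad Cf.nsq Cf.Dw Cf.dh Cf.F
  rw [e1.fderiv_eq, e2.fderiv_eq, e3, e1.eq_of_nhds, e2.eq_of_nhds]

theorem Dat.cap_adm (D : Dat c n s σ e a τ κ) : (cap c s σ τ κ).Adm n := by
  have hsw : ContDiff ℝ ∞ (cap c s σ τ κ).w := D.capW_smooth
  have hsh : ContDiff ℝ ∞ (cap c s σ τ κ).h := by
    rw [contDiff_iff_contDiffAt]
    intro z
    rcases lt_or_ge ‖z‖ (s + e) with h | h
    · have hU : {y : ℂ | ‖y‖ < s + e} ∈ 𝓝 z :=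
        (isOpen_lt continuous_norm continuous_const).mem_nhds h
      have e1 : (cap c s σ τ κ).h =ᶠ[𝓝 z] fun y => σ * Real.sqrt (1 - ‖capW c s τ κ y‖ ^ 2) := by
        filter_upwards [hU] with y hy
        exact D.capH_eq hy
      refine ContDiffAt.congr_of_eventuallyEq ?_ e1
      have h2 : ContDiff ℝ ∞ fun y => 1 - ‖capW c s τ κ y‖ ^ 2 :=
        contDiff_const.sub (D.capW_smooth.norm_sq ℝ)
      have h3 : 1 - ‖capW c s τ κ z‖ ^ 2 ≠ 0 := by
        have := D.capW_sq_le h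
        linarith
      exact contDiffAt_const.mul (h2.contDiffAt.sqrt h3)
    · have hs' : s < ‖z‖ := by linarith [D.he]
      have hU : {y : ℂ | s < ‖y‖} ∈ 𝓝 z :=
        (isOpen_lt continuous_const continuous_norm).mem_nhds hs'
      have e2 : (cap c s σ τ κ).h =ᶠ[𝓝 z] c.h := by
        filter_upwards [hU] with y hy
        exact (D.cap_out (le_of_lt hy)).2
      exact D.adm.sh.contDiffAt.congr_of_eventuallyEq e2
  have hsA : ContDiff ℝ ∞ (cap c s σ τ κ).A := D.adm.sA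
  have hrot : ∀ z, capW c s τ κ (ze n * z) = ze n * capW c s τ κ z :=
    pm_rot (norm_ze n) D.adm.rw
  have hstar : ∀ z, capW c s τ κ (star z) = star (capW c s τ κ z) := pm_star D.adm.cw
  refine ⟨hsw, hsh, hsA, ?_, ?_, hrot, ?_, D.adm.rA, hstar, ?_, D.adm.cA⟩
  · intro z
    rcases lt_or_ge ‖z‖ s with h | h
    · have h1 : ‖z‖ < s + e := by linarith [D.he]
      have h2 := D.capW_sq_le h1
      rw [D.capH_eq h1, mul_pow, sig_sq D, Real.sq_sqrt (by linarith)]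
      change ‖capW c s τ κ z‖ ^ 2 + 1 * (1 - ‖capW c s τ κ z‖ ^ 2) = 1
      ring
    · rw [(D.cap_out h).1, (D.cap_out h).2]
      exact D.adm.unit z
  · have hc := dens_cont hsw hsh hsA
    have i1 : IntegrableOn (cap c s σ τ κ).dens (Metric.closedBall 0 s) :=
      hc.continuousOn.integrableOn_compact (isCompact_closedBall 0 s)
    have i2 : IntegrableOn (cap c s σ τ κ).dens (Metric.closedBall 0 s)ᶜ := by
      refine (D.adm.fin.integrableOn).congr_fun ?_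
        Metric.isClosed_closedBall.measurableSet.compl
      intro z hz
      rw [mem_compl_iff, mem_closedBall_zero_iff, not_le] at hz
      exact (D.cap_dens_out hz).symm
    have i3 := i1.union i2
    rw [union_compl_self, integrableOn_univ] at i3
    exact i3
  · intro z
    change (if ‖ze n * z‖ < s then σ * Real.sqrt (1 - ‖capW c s τ κ (ze n * z)‖ ^ 2)
      else c.h (ze n * z)) = if ‖z‖ < s then σ * Real.sqrt (1 - ‖capW c s τ κ z‖ ^ 2) else c.h z
    rw [hrot, norm_mul, norm_mul, norm_ze, one_mul, one_mul, D.adm.rh]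
  · intro z
    change (if ‖star z‖ < s then σ * Real.sqrt (1 - ‖capW c s τ κ (star z)‖ ^ 2)
      else c.h (star z)) = if ‖z‖ < s then σ * Real.sqrt (1 - ‖capW c s τ κ z‖ ^ 2) else c.h z
    rw [hstar, norm_star, norm_star, D.adm.ch]

theorem Dat.cap_rad (D : Dat c n s σ e a τ κ) : (cap c s σ τ κ).Rad := D.rad

theorem Dat.cap_zero (D : Dat c n s σ e a τ κ) : (cap c s σ τ κ).h 0 = σ := by
  have h1 : ‖(0 : ℂ)‖ < s + e := by
    rw [norm_zero]
    linarith [D.hs, D.he]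
  have h2 : capW c s τ κ 0 = 0 := pm_zero (tau_zero D)
  rw [D.capH_eq h1, h2]
  simp

end GO3.Cap
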