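import Pool.Agent.GO3.B.CapA
import Pool.Agent.GO3.Bnd

/-!
# GO3 / B / CapE: energy of the capped configuration (helper30)

PROOFS.  Let `c' = cap c s σ τ κ`, `κ = κ r`, `0 < r < s`.
* `cap_nsq_le`: `tan` for `c'` (`D.cap_adm`): `h' dh' = - Re (conj w' D_v w')`, so
  `dh'² h'² ≤ ‖w'‖² ‖D_v w'‖²`; `‖w'‖² ≤ 1/2`, `h'² = 1 - ‖w'‖² ≥ 1/2`, so `dh'² ≤ ‖D_v w'‖²`.
* `cap_Dr`: radial gauge (`Rad.Dw_er`): `D w' = fderiv w' (er χ) = (τ' (r/s) / s) w (pt κ χ) + τ κ' dw (er χ)` (`pm_dr`);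
  `|x + y|² ≤ 2 |x|² + 2 |y|²`, `τ' ≤ 2`, `τ ≤ 1`.
* `cap_Dchi`: `Dw_chi`, `pm_dchi`: `D_χ w' = τ (dw (I pt κ χ) - i b(r,χ) w (pt κ χ)) = τ (D_χ w (pt κ χ) + i (b(κ,χ) - b(r,χ)) w (pt κ χ))`,
  `‖w‖ ≤ 1`, `(x - y)² ≤ 2 x² + 2 y²`.  For `r ≤ a s` it is zero since `τ (r/s) = 0`.
* `cap_circle`: `grad_polar` for `c'`, `cap_nsq_le`; integrate `cap_Dr`, `cap_Dchi` over `[0, 2π]`:
  `r ∫ grad' ≤ 2 r (8/s² P + 2 κ'² L² 2π) + (2/r) 1_{r > a s} (2 X₁ + 4 (κ² E + r² E))` where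
  `∫ ‖D_χ w (pt κ χ)‖² ≤ Xo κ ≤ X₁` (`norm_Dw_le`), `∫ b² ≤ r² E` (`int_b_sq`), `κ' r = 0` for `r < s - 2 e` (`κ` is constant on
  `(-∞, s - 2 e]`), `κ' ≤ 1`, `κ, r ≤ s`, `1/r ≤ 1/(a s)`.
* `cap_E`: the densities agree for `‖z‖ > s` (`cap_dens_out`), the circle `‖z‖ = s` is a null set, so
  `c'.E - c.E = 1/2 ∫_{ball 0 s} (c'.dens - c.dens)`; the field `F` is the same (same `A`); `(1 - h')² ≤ 4`,
  `volume (ball 0 s) = π s²`; drop `-(1-h)²`.  `∫_{ball} c'.grad` by `polar_ball` and `cap_circle`, integrated over `(0, s)`.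
-/

open MeasureTheory Filter Topology Set
open scoped ContDiff Real

noncomputable section

namespace GO3.Cap

variable {c : Cf} {n : ℕ} {s σ e a : ℝ} {τ κ : ℝ → ℝ}

theorem Dat.cap_nsq_le (D : Dat c n s σ e a τ κ) {z : ℂ} (hz : ‖z‖ < s) (v : ℂ) :
    (cap c s σ τ κ).nsq z v ≤ 2 * ‖(cap c s σ τ κ).Dw z v‖ ^ 2 := by
  have ht := D.cap_adm.tan z v
  have hu := D.cap_adm.unit z
  have hw : ‖(cap c s σ τ κ).w z‖ ^ 2 ≤ 1 / 2 := D.capW_sq_le (by linarith [D.he])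
  set W := (cap c s σ τ κ).w z
  set Q := (cap c s σ τ κ).Dw z v
  set H := (cap c s σ τ κ).h z
  set d := (cap c s σ τ κ).dh z v with hd
  have h1 : |(star W * Q).re| ≤ ‖W‖ * ‖Q‖ := by
    refine (Complex.abs_re_le_norm _).trans ?_
    rw [norm_mul, norm_star]
  have h2 : (H * d) ^ 2 ≤ ‖W‖ ^ 2 * ‖Q‖ ^ 2 := by
    have h3 : H * d = -(star W * Q).re := by linarith
    rw [h3, neg_sq, ← mul_pow, ← sq_abs (star W * Q).re]
    exact pow_le_pow_left₀ (abs_nonneg _) h1 2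
  have h4 : d ^ 2 ≤ ‖Q‖ ^ 2 := by
    have h5 : 1 / 2 ≤ H ^ 2 := by linarith
    have h6 : 1 / 2 * d ^ 2 ≤ (H * d) ^ 2 := by
      rw [mul_pow]
      exact mul_le_mul_of_nonneg_right h5 (sq_nonneg _)
    have h7 : ‖W‖ ^ 2 * ‖Q‖ ^ 2 ≤ 1 / 2 * ‖Q‖ ^ 2 :=
      mul_le_mul_of_nonneg_right hw (sq_nonneg _)
    linarith
  have h8 : (cap c s σ τ κ).nsq z v = ‖Q‖ ^ 2 + d ^ 2 := rfl
  rw [h8]
  linarith

private theorem nsq2 (x y : ℂ) : ‖x + y‖ ^ 2 ≤ 2 * ‖x‖ ^ 2 + 2 * ‖y‖ ^ 2 := by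
  have h1 := pow_le_pow_left₀ (norm_nonneg _) (norm_add_le x y) 2
  nlinarith [sq_nonneg (‖x‖ - ‖y‖)]

private theorem tau_s (D : Dat c n s σ e a τ κ) : ContDiff ℝ ∞ fun x => τ (x / s) :=
  D.τs.comp (contDiff_id.div_const s)

private theorem tau_0 (D : Dat c n s σ e a τ κ) : ∀ x, x ≤ a * s → (fun x => τ (x / s)) x = 0 :=
  fun _ hx => D.τ0 _ ((div_le_iff₀ D.hs).2 hx)

private theorem tau_d (D : Dat c n s σ e a τ κ) (r : ℝ) :
    deriv (fun x => τ (x / s)) r = deriv τ (r / s) / s := by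
  have h1 : HasDerivAt τ (deriv τ (r / s)) (r / s) :=
    ((D.τs.differentiable (by simp)) (r / s)).hasDerivAt
  have h2 : HasDerivAt (fun x : ℝ => x / s) (1 / s) r := (hasDerivAt_id r).div_const s
  have h3 : HasDerivAt (fun x => τ (x / s)) (deriv τ (r / s) * (1 / s)) r := h1.comp r h2
  rw [h3.deriv]
  ring

theorem Dat.cap_Dr (D : Dat c n s σ e a τ κ) {r : ℝ} (h0 : 0 < r) (h1 : r < s) (χ : ℝ) :
    ‖(cap c s σ τ κ).Dw (pt r χ) (er χ)‖ ^ 2 ≤ 8 / s ^ 2 * ‖c.w (pt (κ r) χ)‖ ^ 2 +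
      2 * (deriv κ r) ^ 2 * ‖fderiv ℝ c.w (pt (κ r) χ) (er χ)‖ ^ 2 := by
  rw [D.cap_rad.Dw_er]
  have h2 : fderiv ℝ (cap c s σ τ κ).w (pt r χ) (er χ) = _ :=
    pm_dr (tau_s D) D.κs D.adm.sw (mul_pos D.ha D.hs) (tau_0 D) h0
  rw [h2, tau_d D]
  refine (nsq2 _ _).trans ?_
  rw [norm_mul, norm_mul, Complex.norm_real, Complex.norm_real, Real.norm_eq_abs,
    Real.norm_eq_abs, mul_pow, mul_pow, sq_abs, sq_abs]
  have hs := D.hs
  have h3 : (deriv τ (r / s) / s) ^ 2 ≤ 4 / s ^ 2 := by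
    rw [div_pow]
    refine div_le_div_of_nonneg_right ?_ (by positivity)
    have := D.τd (r / s)
    nlinarith [this.1, this.2]
  have h4 : (τ (r / s) * deriv κ r) ^ 2 ≤ (deriv κ r) ^ 2 := by
    rw [mul_pow]
    have := D.τb (r / s)
    refine mul_le_of_le_one_left (sq_nonneg _) ?_
    nlinarith [this.1, this.2]
  have h5 := mul_le_mul_of_nonneg_right h3 (sq_nonneg ‖c.w (pt (κ r) χ)‖)
  have h6 := mul_le_mul_of_nonneg_right h4 (sq_nonneg ‖fderiv ℝ c.w (pt (κ r) χ) (er χ)‖)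
  have e1 : 8 / s ^ 2 * ‖c.w (pt (κ r) χ)‖ ^ 2 = 2 * (4 / s ^ 2 * ‖c.w (pt (κ r) χ)‖ ^ 2) := by
    ring
  rw [e1]
  linarith

private theorem Dchi_eq (D : Dat c n s σ e a τ κ) {r : ℝ} (h0 : 0 < r) (χ : ℝ) :
    (cap c s σ τ κ).Dw (pt r χ) (Complex.I * pt r χ) = (τ (r / s) : ℂ) *
      (c.Dw (pt (κ r) χ) (Complex.I * pt (κ r) χ) +
        Complex.I * ((c.b (κ r) χ - c.b r χ : ℝ) : ℂ) * c.w (pt (κ r) χ)) := by
  rw [Cf.Dw_chi, Cf.Dw_chi]
  have h2 : fderiv ℝ (cap c s σ τ κ).w (pt r χ) (Complex.I * pt r χ) = _ :=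
    pm_dchi (tau_s D) D.κs D.adm.sw (mul_pos D.ha D.hs) (tau_0 D) h0
  have h3 : (cap c s σ τ κ).w (pt r χ) = _ := D.capW_pt h0 χ
  have h4 : (cap c s σ τ κ).b r χ = c.b r χ := rfl
  rw [h2, h3, h4]
  push_cast
  ring

theorem Dat.cap_Dchi (D : Dat c n s σ e a τ κ) {r : ℝ} (h0 : 0 < r) (h1 : r < s) (χ : ℝ) :
    ‖(cap c s σ τ κ).Dw (pt r χ) (Complex.I * pt r χ)‖ ^ 2 ≤
      2 * ‖c.Dw (pt (κ r) χ) (Complex.I * pt (κ r) χ)‖ ^ 2 +
        4 * (c.b (κ r) χ ^ 2 + c.b r χ ^ 2) := by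
  rw [Dchi_eq D h0, norm_mul, mul_pow, Complex.norm_real, Real.norm_eq_abs, sq_abs]
  have hτ := D.τb (r / s)
  have h2 : τ (r / s) ^ 2 ≤ 1 := by nlinarith [hτ.1, hτ.2]
  refine (mul_le_of_le_one_left (sq_nonneg _) h2).trans ((nsq2 _ _).trans ?_)
  have h3 : ‖Complex.I * ((c.b (κ r) χ - c.b r χ : ℝ) : ℂ) * c.w (pt (κ r) χ)‖ ^ 2 ≤
      (c.b (κ r) χ - c.b r χ) ^ 2 := by
    rw [norm_mul, norm_mul, Complex.norm_I, one_mul, Complex.norm_real, Real.norm_eq_abs, mul_pow,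
      sq_abs]
    have := D.adm.norm_w_le (pt (κ r) χ)
    refine mul_le_of_le_one_right (sq_nonneg _) ?_
    nlinarith [norm_nonneg (c.w (pt (κ r) χ))]
  nlinarith [sq_nonneg (c.b (κ r) χ + c.b r χ)]

theorem Dat.cap_Dchi_zero (D : Dat c n s σ e a τ κ) {r : ℝ} (h0 : 0 < r) (h1 : r ≤ a * s) (χ : ℝ) :
    (cap c s σ τ κ).Dw (pt r χ) (Complex.I * pt r χ) = 0 := by
  rw [Dchi_eq D h0, D.τ0 _ ((div_le_iff₀ D.hs).2 h1)]
  simp

private theorem kd_zero (D : Dat c n s σ e a τ κ) {r : ℝ} (h : r < s - 2 * e) :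
    deriv κ r = 0 := by
  have h1 : κ =ᶠ[𝓝 r] fun _ => s - e := by
    filter_upwards [Iio_mem_nhds h] with x hx
    exact D.κ0 x (le_of_lt hx)
  rw [h1.deriv_eq]
  simp

private theorem lin_int (f1 f2 f3 f4 : ℝ → ℝ) (c1 : Continuous f1) (c2 : Continuous f2)
    (c3 : Continuous f3) (c4 : Continuous f4) (a b k : ℝ) :
    ∫ χ in (0 : ℝ)..2 * π, (a * f1 χ + b + k * (2 * f2 χ + 4 * (f3 χ + f4 χ))) =
      a * (∫ χ in (0 : ℝ)..2 * π, f1 χ) + 2 * π * b + k * (2 * (∫ χ in (0 : ℝ)..2 * π, f2 χ) +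
        4 * ((∫ χ in (0 : ℝ)..2 * π, f3 χ) + ∫ χ in (0 : ℝ)..2 * π, f4 χ)) := by
  have i1 : IntervalIntegrable (fun χ => a * f1 χ) volume 0 (2 * π) :=
    (continuous_const.mul c1).intervalIntegrable _ _
  have i2 : IntervalIntegrable (fun _ : ℝ => b) volume 0 (2 * π) :=
    continuous_const.intervalIntegrable _ _
  have i12 : IntervalIntegrable (fun χ => a * f1 χ + b) volume 0 (2 * π) :=
    ((continuous_const.mul c1).add continuous_const).intervalIntegrable _ _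
  have i3 : IntervalIntegrable (fun χ => 2 * f2 χ) volume 0 (2 * π) :=
    (continuous_const.mul c2).intervalIntegrable _ _
  have i4 : IntervalIntegrable (fun χ => 4 * (f3 χ + f4 χ)) volume 0 (2 * π) :=
    (continuous_const.mul (c3.add c4)).intervalIntegrable _ _
  have i34 : IntervalIntegrable (fun χ => k * (2 * f2 χ + 4 * (f3 χ + f4 χ))) volume 0 (2 * π) :=
    (continuous_const.mul ((continuous_const.mul c2).add
      (continuous_const.mul (c3.add c4)))).intervalIntegrable _ _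
  rw [intervalIntegral.integral_add i12 i34, intervalIntegral.integral_add i1 i2,
    intervalIntegral.integral_const_mul, intervalIntegral.integral_const,
    intervalIntegral.integral_const_mul, intervalIntegral.integral_add i3 i4,
    intervalIntegral.integral_const_mul, intervalIntegral.integral_const_mul,
    intervalIntegral.integral_add (c3.intervalIntegrable _ _) (c4.intervalIntegrable _ _),
    smul_eq_mul, sub_zero]

theorem Dat.cap_circle (D : Dat c n s σ e a τ κ) {P X₁ L : ℝ}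
    (hP : ∀ ρ ∈ Icc (s - e) s, ∫ χ in (0 : ℝ)..2 * π, ‖c.w (pt ρ χ)‖ ^ 2 ≤ P)
    (hX : ∀ ρ ∈ Icc (s - e) s, c.Xo ρ ≤ X₁)
    (hL : ∀ ρ ∈ Icc (s - e) s, ∀ χ, ‖fderiv ℝ c.w (pt ρ χ) (er χ)‖ ≤ L) {r : ℝ} (h0 : 0 < r)
    (h1 : r < s) :
    r * ∫ χ in (0 : ℝ)..2 * π, (cap c s σ τ κ).grad (pt r χ) ≤
      16 / s * P + 2 / (a * s) * (2 * X₁ + 8 * s ^ 2 * c.E) +
        if s - 2 * e ≤ r then 8 * π * s * L ^ 2 else 0 := by
  have hκ := D.κb r h1.le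
  have hκ' : κ r ∈ Icc (s - e) s := hκ
  have hs := D.hs
  have he := D.he
  have hes := D.hes
  have ha := D.ha
  have hpi := Real.pi_pos
  have hκ0 : 0 ≤ κ r := by linarith [hκ.1]
  have hE : 0 ≤ c.E := Cf.Adm.E_nonneg c
  set q : ℝ := if r ≤ a * s then 0 else 1 with hq
  have hq0 : 0 ≤ q := by
    rw [hq]; split_ifs <;> norm_num
  set d : ℝ := deriv κ r with hd
  -- pointwise bound
  have hpt : ∀ χ : ℝ, (cap c s σ τ κ).grad (pt r χ) ≤ 16 / s ^ 2 * ‖c.w (pt (κ r) χ)‖ ^ 2 +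
      4 * d ^ 2 * L ^ 2 + 2 / r ^ 2 * q * (2 * c.nsq (pt (κ r) χ) (Complex.I * pt (κ r) χ) +
        4 * (c.b (κ r) χ ^ 2 + c.b r χ ^ 2)) := by
    intro χ
    have hz : ‖pt r χ‖ < s := by
      rw [norm_pt, abs_of_pos h0]
      exact h1
    rw [Cf.grad_polar _ h0.ne']
    have a1 := D.cap_nsq_le hz (er χ)
    have a2 := D.cap_Dr h0 h1 χ
    have a3 := hL (κ r) hκ' χ
    have a4 : ‖fderiv ℝ c.w (pt (κ r) χ) (er χ)‖ ^ 2 ≤ L ^ 2 := pow_le_pow_left₀ (norm_nonneg _) a3 2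
    have a5 : 2 * d ^ 2 * ‖fderiv ℝ c.w (pt (κ r) χ) (er χ)‖ ^ 2 ≤ 2 * d ^ 2 * L ^ 2 :=
      mul_le_mul_of_nonneg_left a4 (by positivity)
    have b1 : (cap c s σ τ κ).nsq (pt r χ) (Complex.I * pt r χ) / r ^ 2 ≤
        2 / r ^ 2 * q * (2 * c.nsq (pt (κ r) χ) (Complex.I * pt (κ r) χ) +
        4 * (c.b (κ r) χ ^ 2 + c.b r χ ^ 2)) := by
      have b2 := D.cap_nsq_le hz (Complex.I * pt r χ)
      rw [hq]
      split_ifs with hr
      · rw [D.cap_Dchi_zero h0 hr] at b2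
        have b3 : (cap c s σ τ κ).nsq (pt r χ) (Complex.I * pt r χ) ≤ 0 := by
          simpa using b2
        rw [mul_zero, zero_mul]
        exact div_nonpos_of_nonpos_of_nonneg b3 (by positivity)
      · have b3 := D.cap_Dchi h0 h1 χ
        have b4 := Cf.norm_Dw_le c (pt (κ r) χ) (Complex.I * pt (κ r) χ)
        rw [mul_one, div_mul_eq_mul_div, div_le_div_iff_of_pos_right (by positivity)]
        linarith
    have e1 : 16 / s ^ 2 * ‖c.w (pt (κ r) χ)‖ ^ 2 = 2 * (8 / s ^ 2 * ‖c.w (pt (κ r) χ)‖ ^ 2) := by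
      ring
    rw [e1]
    linarith
  -- continuity
  have cpt : ∀ ρ : ℝ, Continuous fun χ : ℝ => pt ρ χ := fun ρ =>
    continuous_pt.comp (continuous_const.prodMk continuous_id)
  have cw : Continuous fun χ : ℝ => ‖c.w (pt (κ r) χ)‖ ^ 2 :=
    ((D.adm.sw.continuous.comp (cpt _)).norm).pow 2
  have cn : Continuous fun χ : ℝ => c.nsq (pt (κ r) χ) (Complex.I * pt (κ r) χ) :=
    D.adm.contDiff_nsq.continuous.comp ((cpt _).prodMk (continuous_const.mul (cpt _)))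
  have cb : ∀ ρ : ℝ, Continuous fun χ : ℝ => c.b ρ χ ^ 2 := fun ρ =>
    (D.adm.contDiff_b.continuous.comp (continuous_const.prodMk continuous_id)).pow 2
  have cg : Continuous fun χ : ℝ => (cap c s σ τ κ).grad (pt r χ) :=
    D.cap_adm.contDiff_grad.continuous.comp (cpt _)
  have cR : Continuous fun χ : ℝ => 16 / s ^ 2 * ‖c.w (pt (κ r) χ)‖ ^ 2 +
      4 * d ^ 2 * L ^ 2 + 2 / r ^ 2 * q * (2 * c.nsq (pt (κ r) χ) (Complex.I * pt (κ r) χ) +
        4 * (c.b (κ r) χ ^ 2 + c.b r χ ^ 2)) :=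
    ((continuous_const.mul cw).add continuous_const).add
      (continuous_const.mul ((continuous_const.mul cn).add
        (continuous_const.mul ((cb _).add (cb _)))))
  have hint := intervalIntegral.integral_mono_on (μ := volume) (by positivity : (0 : ℝ) ≤ 2 * π)
    (cg.intervalIntegrable _ _) (cR.intervalIntegrable _ _) (fun χ _ => hpt χ)
  have hval : ∫ χ in (0 : ℝ)..2 * π, (16 / s ^ 2 * ‖c.w (pt (κ r) χ)‖ ^ 2 +
      4 * d ^ 2 * L ^ 2 + 2 / r ^ 2 * q * (2 * c.nsq (pt (κ r) χ) (Complex.I * pt (κ r) χ) +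
        4 * (c.b (κ r) χ ^ 2 + c.b r χ ^ 2))) =
      16 / s ^ 2 * (∫ χ in (0 : ℝ)..2 * π, ‖c.w (pt (κ r) χ)‖ ^ 2) + 2 * π * (4 * d ^ 2 * L ^ 2) +
      2 / r ^ 2 * q * (2 * c.Xo (κ r) + 4 * ((∫ χ in (0 : ℝ)..2 * π, c.b (κ r) χ ^ 2) +
        ∫ χ in (0 : ℝ)..2 * π, c.b r χ ^ 2)) := by
    exact lin_int _ _ _ _ cw cn (cb _) (cb _) _ _ _
  rw [hval] at hint
  have i1 := hP (κ r) hκ'
  have i2 := hX (κ r) hκ'
  have i3 := Cf.int_b_sq D.adm D.rad hκ0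
  have i4 := Cf.int_b_sq D.adm D.rad h0.le
  have n1 : 0 ≤ ∫ χ in (0 : ℝ)..2 * π, ‖c.w (pt (κ r) χ)‖ ^ 2 :=
    intervalIntegral.integral_nonneg (by positivity) fun χ _ => by positivity
  have n2 : 0 ≤ c.Xo (κ r) :=
    intervalIntegral.integral_nonneg (by positivity) fun χ _ => Cf.nsq_nonneg c _ _
  have nP : 0 ≤ P := n1.trans i1
  have nX : 0 ≤ X₁ := n2.trans i2
  have k1 : κ r ^ 2 * c.E ≤ s ^ 2 * c.E :=
    mul_le_mul_of_nonneg_right (pow_le_pow_left₀ hκ0 hκ.2 2) hE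
  have k2 : r ^ 2 * c.E ≤ s ^ 2 * c.E :=
    mul_le_mul_of_nonneg_right (pow_le_pow_left₀ h0.le h1.le 2) hE
  -- multiply by `r`
  have m1 : r * (16 / s ^ 2 * ∫ χ in (0 : ℝ)..2 * π, ‖c.w (pt (κ r) χ)‖ ^ 2) ≤ 16 / s * P := by
    have u1 : 16 / s ^ 2 * (∫ χ in (0 : ℝ)..2 * π, ‖c.w (pt (κ r) χ)‖ ^ 2) ≤ 16 / s ^ 2 * P :=
      mul_le_mul_of_nonneg_left i1 (by positivity)
    have u2 : r * (16 / s ^ 2 * P) ≤ s * (16 / s ^ 2 * P) :=
      mul_le_mul_of_nonneg_right h1.le (by positivity)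
    have u3 : s * (16 / s ^ 2 * P) = 16 / s * P := by
      field_simp
    have u4 := mul_le_mul_of_nonneg_left u1 h0.le
    linarith
  have m2 : r * (2 * π * (4 * d ^ 2 * L ^ 2)) ≤ if s - 2 * e ≤ r then 8 * π * s * L ^ 2 else 0 := by
    split_ifs with hr
    · have u1 : d ^ 2 ≤ 1 := by
        have := D.κd r
        rw [← hd] at this
        nlinarith [this.1, this.2]
      have u2 : r * d ^ 2 ≤ s * 1 := mul_le_mul h1.le u1 (sq_nonneg _) hs.le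
      have u3 : 0 ≤ 8 * π * L ^ 2 := by positivity
      have u4 := mul_le_mul_of_nonneg_left u2 u3
      calc r * (2 * π * (4 * d ^ 2 * L ^ 2)) = 8 * π * L ^ 2 * (r * d ^ 2) := by ring
        _ ≤ 8 * π * L ^ 2 * (s * 1) := u4
        _ = 8 * π * s * L ^ 2 := by ring
    · have u1 : d = 0 := kd_zero D (not_le.1 hr)
      rw [u1]
      simp
  have m3 : r * (2 / r ^ 2 * q * (2 * c.Xo (κ r) + 4 * ((∫ χ in (0 : ℝ)..2 * π, c.b (κ r) χ ^ 2) +
        ∫ χ in (0 : ℝ)..2 * π, c.b r χ ^ 2))) ≤ 2 / (a * s) * (2 * X₁ + 8 * s ^ 2 * c.E) := by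
    have u0 : 2 * c.Xo (κ r) + 4 * ((∫ χ in (0 : ℝ)..2 * π, c.b (κ r) χ ^ 2) +
        ∫ χ in (0 : ℝ)..2 * π, c.b r χ ^ 2) ≤ 2 * X₁ + 8 * s ^ 2 * c.E := by linarith
    have u5 : 0 ≤ 2 * X₁ + 8 * s ^ 2 * c.E := by positivity
    have u1 : r * (2 / r ^ 2 * q) ≤ 2 / (a * s) := by
      rw [hq]
      split_ifs with hr
      · rw [mul_zero, mul_zero]
        positivity
      · rw [mul_one]
        have u2 : r * (2 / r ^ 2) = 2 / r := by field_simp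
        rw [u2]
        exact div_le_div_of_nonneg_left (by norm_num) (mul_pos ha hs) (not_le.1 hr).le
    have u3 : 0 ≤ r * (2 / r ^ 2 * q) := by positivity
    calc r * (2 / r ^ 2 * q * (2 * c.Xo (κ r) + 4 * ((∫ χ in (0 : ℝ)..2 * π, c.b (κ r) χ ^ 2) +
        ∫ χ in (0 : ℝ)..2 * π, c.b r χ ^ 2)))
        = r * (2 / r ^ 2 * q) * (2 * c.Xo (κ r) + 4 * ((∫ χ in (0 : ℝ)..2 * π, c.b (κ r) χ ^ 2) +
        ∫ χ in (0 : ℝ)..2 * π, c.b r χ ^ 2)) := by ring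
      _ ≤ r * (2 / r ^ 2 * q) * (2 * X₁ + 8 * s ^ 2 * c.E) := mul_le_mul_of_nonneg_left u0 u3
      _ ≤ 2 / (a * s) * (2 * X₁ + 8 * s ^ 2 * c.E) := mul_le_mul_of_nonneg_right u1 u5
  have hfin := mul_le_mul_of_nonneg_left hint h0.le
  rw [mul_add, mul_add] at hfin
  linarith

private theorem dens_ball {c : Cf} (hc : c.Adm n) (S : Set ℂ) : ∫ z in S, c.dens z =
    (∫ z in S, c.grad z) + (∫ z in S, (1 - c.h z) ^ 2) + ∫ z in S, c.F z ^ 2 := by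
  have i1 : IntegrableOn (fun z => c.grad z) S := hc.int_grad.integrableOn
  have i2 : IntegrableOn (fun z => (1 - c.h z) ^ 2) S := hc.int_pot.integrableOn
  have i3 : IntegrableOn (fun z => c.F z ^ 2) S := hc.int_F.integrableOn
  have i12 : IntegrableOn (fun z => c.grad z + (1 - c.h z) ^ 2) S := Integrable.add i1 i2
  unfold Cf.dens
  rw [integral_add i12 i3, integral_add i1 i2]

theorem Dat.cap_E (D : Dat c n s σ e a τ κ) {P X₁ L : ℝ}
    (hP : ∀ ρ ∈ Icc (s - e) s, ∫ χ in (0 : ℝ)..2 * π, ‖c.w (pt ρ χ)‖ ^ 2 ≤ P)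
    (hX : ∀ ρ ∈ Icc (s - e) s, c.Xo ρ ≤ X₁)
    (hL : ∀ ρ ∈ Icc (s - e) s, ∀ χ, ‖fderiv ℝ c.w (pt ρ χ) (er χ)‖ ≤ L) :
    (cap c s σ τ κ).E ≤ c.E - c.ee 0 s + 2 * π * s ^ 2 +
      1 / 2 * (16 * P + 2 / a * (2 * X₁ + 8 * s ^ 2 * c.E) + 16 * π * e * s * L ^ 2) := by
  have hs := D.hs
  have he := D.he
  have hes := D.hes
  have ha := D.ha
  have hpi := Real.pi_pos
  have A' := D.cap_adm
  set c' := cap c s σ τ κ with hc'
  have mb : MeasurableSet (Metric.ball (0 : ℂ) s) := Metric.isOpen_ball.measurableSet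
  -- outside
  have hout : ∫ z in (Metric.ball (0 : ℂ) s)ᶜ, c'.dens z = ∫ z in (Metric.ball (0 : ℂ) s)ᶜ, c.dens z := by
    refine setIntegral_congr_ae mb.compl ?_
    have h1 : volume (Metric.sphere (0 : ℂ) s) = 0 := Measure.addHaar_sphere _ _ _
    have h2 : ∀ᵐ z : ℂ, z ∉ Metric.sphere (0 : ℂ) s := measure_eq_zero_iff_ae_notMem.1 h1
    filter_upwards [h2] with z hz hz2
    rw [mem_compl_iff, mem_ball_zero_iff, not_lt] at hz2
    rw [mem_sphere_zero_iff_norm] at hz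
    exact D.cap_dens_out (lt_of_le_of_ne hz2 (Ne.symm hz))
  have hsp' := integral_add_compl mb A'.fin
  have hsp := integral_add_compl mb D.adm.fin
  -- inside
  have hin' := dens_ball A' (Metric.ball (0 : ℂ) s)
  have hin := dens_ball D.adm (Metric.ball (0 : ℂ) s)
  have hF : ∫ z in Metric.ball (0 : ℂ) s, c'.F z ^ 2 = ∫ z in Metric.ball (0 : ℂ) s, c.F z ^ 2 := rfl
  have hpot : 0 ≤ ∫ z in Metric.ball (0 : ℂ) s, (1 - c.h z) ^ 2 :=
    integral_nonneg fun z => sq_nonneg _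
  have hpot' : ∫ z in Metric.ball (0 : ℂ) s, (1 - c'.h z) ^ 2 ≤ 4 * (π * s ^ 2) := by
    have h1 : ∀ z, (1 - c'.h z) ^ 2 ≤ 4 := by
      intro z
      have := abs_le.1 (A'.abs_h_le z)
      nlinarith [this.1, this.2]
    have hfin : volume (Metric.ball (0 : ℂ) s) ≠ ⊤ := measure_ball_lt_top.ne
    have h2 : ∫ z in Metric.ball (0 : ℂ) s, (1 - c'.h z) ^ 2 ≤
        ∫ z in Metric.ball (0 : ℂ) s, (4 : ℝ) :=
      setIntegral_mono A'.int_pot.integrableOn (integrableOn_const hfin) h1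
    rw [setIntegral_const, smul_eq_mul, measureReal_def, Complex.volume_ball] at h2
    have h3 : (ENNReal.ofReal s ^ 2 * (NNReal.pi : ENNReal)).toReal = s ^ 2 * π := by
      rw [ENNReal.toReal_mul, ENNReal.toReal_pow, ENNReal.toReal_ofReal hs.le]
      rfl
    rw [h3] at h2
    linarith
  -- the gradient part
  set A₀ : ℝ := 16 / s * P + 2 / (a * s) * (2 * X₁ + 8 * s ^ 2 * c.E) with hA₀
  set g : ℝ → ℝ := fun r => r * ∫ χ in (0 : ℝ)..2 * π, c'.grad (0 + pt r χ) with hg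
  have cgr : Continuous c'.grad := A'.contDiff_grad.continuous
  have gcont : Continuous g := continuous_id.mul (continuous_circle _ cgr 0 0 (2 * π))
  have hgrad : ∫ z in Metric.ball (0 : ℂ) s, c'.grad z = ∫ r in (0 : ℝ)..s, g r :=
    polar_ball _ cgr 0 hs.le
  have hcir : ∀ r, 0 < r → r < s → g r ≤ A₀ + if s - 2 * e ≤ r then 8 * π * s * L ^ 2 else 0 := by
    intro r h0 h1
    have h2 := D.cap_circle hP hX hL h0 h1
    rw [hg]
    simp only [zero_add]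
    exact h2
  have h0e : 0 < s - 2 * e := by linarith
  have p1 : ∫ r in (0 : ℝ)..(s - 2 * e), g r ≤ (s - 2 * e) * A₀ := by
    have := intervalIntegral.integral_mono_on_of_le_Ioo h0e.le (gcont.intervalIntegrable _ _)
      (continuous_const.intervalIntegrable (μ := volume) _ _ : IntervalIntegrable (fun _ => A₀) volume _ _)
      (fun r hr => by
        have h2 := hcir r hr.1 (by linarith [hr.2])
        rw [if_neg (not_le.2 hr.2), add_zero] at h2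
        exact h2)
    rwa [intervalIntegral.integral_const, smul_eq_mul, sub_zero] at this
  have p2 : ∫ r in (s - 2 * e)..s, g r ≤ (2 * e) * (A₀ + 8 * π * s * L ^ 2) := by
    have := intervalIntegral.integral_mono_on_of_le_Ioo (by linarith : s - 2 * e ≤ s)
      (gcont.intervalIntegrable _ _)
      (continuous_const.intervalIntegrable (μ := volume) _ _ :
        IntervalIntegrable (fun _ => A₀ + 8 * π * s * L ^ 2) volume _ _)
      (fun r hr => by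
        have h2 := hcir r (by linarith [hr.1]) hr.2
        rw [if_pos hr.1.le] at h2
        exact h2)
    rw [intervalIntegral.integral_const, smul_eq_mul] at this
    have e1 : s - (s - 2 * e) = 2 * e := by ring
    rwa [e1] at this
  have p3 : (∫ r in (0 : ℝ)..(s - 2 * e), g r) + ∫ r in (s - 2 * e)..s, g r =
      ∫ r in (0 : ℝ)..s, g r :=
    intervalIntegral.integral_add_adjacent_intervals (gcont.intervalIntegrable _ _)
      (gcont.intervalIntegrable _ _)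
  have p4 : s * A₀ = 16 * P + 2 / a * (2 * X₁ + 8 * s ^ 2 * c.E) := by
    rw [hA₀]
    field_simp
  have p5 : ∫ z in Metric.ball (0 : ℂ) s, c'.grad z ≤
      16 * P + 2 / a * (2 * X₁ + 8 * s ^ 2 * c.E) + 16 * π * e * s * L ^ 2 := by
    rw [hgrad, ← p3]
    calc _ ≤ (s - 2 * e) * A₀ + (2 * e) * (A₀ + 8 * π * s * L ^ 2) := add_le_add p1 p2
      _ = s * A₀ + 16 * π * e * s * L ^ 2 := by ring
      _ = _ := by rw [p4]
  have q1 : c'.E = 1 / 2 * ∫ z, c'.dens z := rfl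
  have q2 : c.E = 1 / 2 * ∫ z, c.dens z := rfl
  have q3 : c.ee 0 s = 1 / 2 * ∫ z in Metric.ball (0 : ℂ) s, c.grad z := rfl
  have q4 : c'.E = c.E + 1 / 2 * ((∫ z in Metric.ball (0 : ℂ) s, c'.dens z) -
      ∫ z in Metric.ball (0 : ℂ) s, c.dens z) := by
    rw [q1, q2, ← hsp', ← hsp, hout]
    ring
  rw [q4, q3, hin', hin, hF]
  linarith

end GO3.Cap
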