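import Pool.Agent.GO3.Ang
import Pool.Agent.GO3.Bnd

/-!
# GO3 / B / Sel: selection of a good radius (helper30)

PROOFS.
* `sel_radius`: `Xo = 2 n³ X` (`Xo_eq`), so `∫_{(0,∞)} Xo / s ds ≤ 2 E` (`int_X`).  If `Xo s > m = 2 E / log (1/r)` for all
  `s ∈ [r², r]`, then by continuity and compactness `Xo ≥ m + η` there with `η > 0`, and
  `∫_{r²}^r Xo / s ≥ (m + η) log (r / r²) = (m + η) log (1/r) > 2 E`, a contradiction.
* `circ_P`: `ang_Xo` with `d = 1/2`, `dist_small`.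
* `circ_w`: `sup_w`: `‖w‖² ≤ 2 (1/2π) 4 Xo + 2 α X`, `α X = (π/n³) Xo / (2 n³) ≤ π Xo / 128`.
* `circ_sign`: `‖w‖² ≤ η ≤ 1/4` on the circle, so `|h| ≥ √(1 - η) ≥ 1 - η > 0` (`h² = 1 - ‖w‖² ≥ (1-η)²`); `χ ↦ h (pt s χ)` is
  continuous and has no zero, so it has constant sign `σ` (connectedness of `ℝ`), `|h - σ| ≤ η`; `cc` is an average of `h`.
* `ee_mono`: `grad ≥ 0` is integrable.
-/

open MeasureTheory Filter Topology Set
open scoped ContDiff Real

noncomputable section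

namespace GO3.Cap

variable {c : Cf} {n : ℕ}

theorem sel_radius (hn : 2 ≤ n) (hc : c.Adm n) {r : ℝ} (h0 : 0 < r) (h1 : r < 1) :
    ∃ s ∈ Icc (r ^ 2) r, c.Xo s ≤ 2 * c.E / Real.log (1 / r) := by
  have hn0 : 0 < n := by omega
  have hnr : (0 : ℝ) < n := by exact_mod_cast hn0
  have hr2 : 0 < r ^ 2 := by positivity
  have hlt : r ^ 2 < r := by nlinarith
  have hlog : 0 < Real.log (1 / r) := Real.log_pos (by rw [lt_div_iff₀ h0]; linarith)
  by_contra hcon
  push Not at hcon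
  have hXo : ∀ s, c.Xo s = 2 * (n : ℝ) ^ 3 * c.X n s := fun s => Cf.Xo_eq hn0 hc s
  have hXc : Continuous c.Xo := by
    have e : c.Xo = fun s => 2 * (n : ℝ) ^ 3 * c.X n s := funext hXo
    rw [e]
    exact continuous_const.mul (Cf.contDiff_X hc)
  have hXnn : ∀ s, 0 ≤ c.Xo s := fun s =>
    intervalIntegral.integral_nonneg (by positivity) fun _ _ => c.nsq_nonneg _ _
  obtain ⟨hi, hle⟩ := Cf.int_X hn0 hc
  have hi' : IntegrableOn (fun s => c.Xo s / s) (Ioi 0) := by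
    have e : (fun s => c.Xo s / s) = fun s => 2 * (n : ℝ) ^ 3 * (c.X n s / s) := by
      funext s
      rw [hXo]
      ring
    rw [e]
    exact hi.const_mul _
  have hle' : ∫ s in Ioi (0 : ℝ), c.Xo s / s ≤ 2 * c.E := by
    have e : (fun s => c.Xo s / s) = fun s => 2 * (n : ℝ) ^ 3 * (c.X n s / s) := by
      funext s
      rw [hXo]
      ring
    rw [e, integral_const_mul]
    have h := mul_le_mul_of_nonneg_left hle (by positivity : (0 : ℝ) ≤ 2 * (n : ℝ) ^ 3)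
    refine h.trans (le_of_eq ?_)
    field_simp
  have hsub : Ioc (r ^ 2) r ⊆ Ioi (0 : ℝ) := fun x hx => hr2.trans hx.1
  have h3 : ∫ s in (r ^ 2)..r, c.Xo s / s ≤ 2 * c.E := by
    rw [intervalIntegral.integral_of_le hlt.le]
    refine le_trans (setIntegral_mono_set hi' ?_ hsub.eventuallyLE) hle'
    filter_upwards [ae_restrict_mem measurableSet_Ioi] with s hs
    exact div_nonneg (hXnn s) (le_of_lt hs)
  have h4 : ∫ s in (r ^ 2)..r, 2 * c.E / Real.log (1 / r) / s < ∫ s in (r ^ 2)..r, c.Xo s / s := by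
    refine intervalIntegral.integral_lt_integral_of_continuousOn_of_le_of_exists_lt hlt ?_ ?_ ?_ ?_
    · exact continuousOn_const.div continuousOn_id fun x hx => (hr2.trans_le hx.1).ne'
    · exact hXc.continuousOn.div continuousOn_id fun x hx => (hr2.trans_le hx.1).ne'
    · intro x hx
      exact div_le_div_of_nonneg_right (hcon x ⟨hx.1.le, hx.2⟩).le (hr2.trans hx.1).le
    · exact ⟨r, ⟨hlt.le, le_rfl⟩, div_lt_div_of_pos_right (hcon r ⟨hlt.le, le_rfl⟩) h0⟩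
  have h5 : ∫ s in (r ^ 2)..r, 2 * c.E / Real.log (1 / r) / s = 2 * c.E := by
    have e : (fun s : ℝ => 2 * c.E / Real.log (1 / r) / s) =
        fun s => 2 * c.E / Real.log (1 / r) * (1 / s) := by
      funext s
      ring
    rw [e, intervalIntegral.integral_const_mul, integral_one_div_of_pos hr2 h0]
    have e2 : r / r ^ 2 = 1 / r := by
      field_simp
    rw [e2]
    field_simp
  linarith

theorem circ_P (hn : 2 ≤ n) (hc : c.Adm n) {s : ℝ} (hb : |c.beta n s| ≤ 1 / 2) :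
    ∫ χ in (0 : ℝ)..2 * π, ‖c.w (pt s χ)‖ ^ 2 ≤ 4 * c.Xo s := by
  have hn0 : 0 < n := by omega
  have h := Cf.ang_Xo hn0 hc s (d := 1 / 2) (by norm_num) (fun k => by
    have := Cf.dist_small hn hb (by norm_num : (1 / 2 : ℝ) < 1) k
    linarith)
  refine h.trans (le_of_eq ?_)
  ring

theorem circ_w (hn : 2 ≤ n) (hc : c.Adm n) {s : ℝ} (hb : |c.beta n s| ≤ 1 / 2) (χ : ℝ) :
    ‖c.w (pt s χ)‖ ^ 2 ≤ 5 * c.Xo s := by
  have hn0 : 0 < n := by omega
  have hnr : (2 : ℝ) ≤ n := by exact_mod_cast hn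
  have h1 := Cf.sup_w hn0 hc s χ
  have h2 := circ_P hn hc hb
  have h3 := Cf.Xo_eq hn0 hc s
  have hXnn : 0 ≤ c.Xo s :=
    intervalIntegral.integral_nonneg (by positivity) fun _ _ => c.nsq_nonneg _ _
  have hpi := Real.pi_gt_three
  have hpi4 := Real.pi_le_four
  have e1 : (1 / (2 * π)) * ∫ t in (0 : ℝ)..2 * π, ‖c.w (pt s t)‖ ^ 2 ≤ c.Xo s := by
    have h4 : (1 / (2 * π)) * ∫ t in (0 : ℝ)..2 * π, ‖c.w (pt s t)‖ ^ 2 ≤ (1 / (2 * π)) * (4 * c.Xo s) :=
      mul_le_mul_of_nonneg_left h2 (by positivity)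
    refine h4.trans ?_
    rw [one_div, inv_mul_le_iff₀ (by positivity)]
    nlinarith
  have e2 : al n * c.X n s ≤ c.Xo s := by
    have hX : c.X n s = c.Xo s / (2 * (n : ℝ) ^ 3) := by
      rw [h3]
      field_simp
    rw [hX]
    unfold al
    have h8 : (8 : ℝ) ≤ (n : ℝ) ^ 3 := by
      calc (8 : ℝ) = 2 ^ 3 := by norm_num
        _ ≤ (n : ℝ) ^ 3 := by gcongr
    rw [div_mul_div_comm, div_le_iff₀ (by positivity)]
    have h9 : (64 : ℝ) ≤ (n : ℝ) ^ 3 * (n : ℝ) ^ 3 := by nlinarith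
    nlinarith
  linarith

theorem circ_sign (hn : 2 ≤ n) (hc : c.Adm n) {s η : ℝ} (hη : η ≤ 1 / 4)
    (hw : ∀ χ, ‖c.w (pt s χ)‖ ^ 2 ≤ η) : ∃ σ : ℝ, (σ = 1 ∨ σ = -1) ∧ (∀ χ, 0 < σ * c.h (pt s χ)) ∧
      |c.cc n s - σ| ≤ η := by
  have hn0 : 0 < n := by omega
  have hal := al_pos hn0
  have hcont : Continuous fun χ : ℝ => c.h (pt s χ) :=
    hc.sh.continuous.comp (continuous_pt.comp (Continuous.prodMk_right s))
  have hne : ∀ χ, c.h (pt s χ) ≠ 0 := by
    intro χ h0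
    have h1 := hc.unit (pt s χ)
    have h2 := hw χ
    rw [h0] at h1
    nlinarith
  obtain ⟨σ, hσ, hpos⟩ : ∃ σ : ℝ, (σ = 1 ∨ σ = -1) ∧ ∀ χ, 0 < σ * c.h (pt s χ) := by
    rcases lt_or_gt_of_ne (hne 0) with h | h
    · refine ⟨-1, Or.inr rfl, fun χ => ?_⟩
      by_contra hcon
      have h2 : 0 ≤ c.h (pt s χ) := by linarith
      obtain ⟨y, hy⟩ := mem_range_of_exists_le_of_exists_ge hcont ⟨0, h.le⟩ ⟨χ, h2⟩
      exact hne y hy
    · refine ⟨1, Or.inl rfl, fun χ => ?_⟩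
      by_contra hcon
      have h2 : c.h (pt s χ) ≤ 0 := by linarith
      obtain ⟨y, hy⟩ := mem_range_of_exists_le_of_exists_ge hcont ⟨χ, h2⟩ ⟨0, h.le⟩
      exact hne y hy
  have hσ2 : σ * σ = 1 := by
    rcases hσ with h | h <;> rw [h] <;> norm_num
  have hσa : |σ| = 1 := by
    rcases hσ with h | h <;> rw [h] <;> norm_num
  refine ⟨σ, hσ, hpos, ?_⟩
  have hpt : ∀ χ, |c.h (pt s χ) - σ| ≤ η := by
    intro χ
    have h1 := hc.unit (pt s χ)
    have h2 := hw χ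
    have h3 := hpos χ
    have h4 : (σ * c.h (pt s χ)) ^ 2 = c.h (pt s χ) ^ 2 := by
      rw [mul_pow, pow_two σ, hσ2, one_mul]
    have h5 : σ * c.h (pt s χ) ≤ 1 := by
      nlinarith [sq_nonneg ‖c.w (pt s χ)‖]
    have h6 : |c.h (pt s χ) - σ| = 1 - σ * c.h (pt s χ) := by
      have e : |c.h (pt s χ) - σ| = |σ * (c.h (pt s χ) - σ)| := by
        rw [abs_mul, hσa, one_mul]
      rw [e, mul_sub, hσ2, abs_sub_comm, abs_of_nonneg (by linarith)]
    rw [h6]
    nlinarith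
  have e1 : c.cc n s - σ = 1 / al n * ∫ χ in (0 : ℝ)..al n, (c.h (pt s χ) - σ) := by
    rw [intervalIntegral.integral_sub (hcont.intervalIntegrable _ _)
      (continuous_const.intervalIntegrable _ _), intervalIntegral.integral_const]
    unfold Cf.cc
    rw [smul_eq_mul, sub_zero, mul_sub]
    congr 1
    field_simp
  have e2 : |∫ χ in (0 : ℝ)..al n, (c.h (pt s χ) - σ)| ≤ η * |al n - 0| := by
    rw [← Real.norm_eq_abs]
    exact intervalIntegral.norm_integral_le_of_norm_le_const fun χ _ => hpt χ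
  rw [sub_zero, abs_of_pos hal] at e2
  rw [e1, abs_mul, abs_of_pos (by positivity : 0 < 1 / al n), one_div, inv_mul_le_iff₀ hal]
  linarith

theorem ee_mono (hc : c.Adm n) (q : ℂ) {r s : ℝ} (h : r ≤ s) : c.ee q r ≤ c.ee q s := by
  unfold Cf.ee
  refine mul_le_mul_of_nonneg_left ?_ (by norm_num)
  exact setIntegral_mono_set (Cf.Adm.int_grad hc).integrableOn
    (ae_of_all _ fun z => c.grad_nonneg z) (Metric.ball_subset_ball h).eventuallyLE

end GO3.Cap
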