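import Pool.Agent.GO3.B.Cap
import Pool.Agent.GO3.B.Sel
import Pool.Agent.GO3.Lmo

/-!
# GO3 / B / One: one surgery at the origin (helper30)

PROOFS.
* `Z_same`: `c'` and `c` have the same potential, so the same `b`, `B`, `beta`, `aa`.  For `r ≥ s` (`r ≥ 0`) they have the same
  values on the circle of radius `r`, so the same `cc`, `V`, `Z`.  For `r ≤ s ≤ rm K n`: `psi (c.aa n r) = 0` (`psi_small`), so
  `Z' = Z = 1` (definition of `Z`).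
* `onestep`: given `ε` (assume `ε ≤ 1/2`: otherwise use `1/2`).  Let `E₀ = K n²`, `C` from `cap_exists`.  Choose `ε₂ > 0` with
  `5 ε₂ ≤ ε`, `5 ε₂ ≤ 1/4`, `(6 C + 1) ε₂ ≤ ε`, and `r ∈ (0, 1)` with `2 E₀ / log (1/r) ≤ ε₂`, `r² (E₀ + 1) ≤ ε₂`,
  `r √(E₀/(2π)) ≤ ε`, `r ≤ rm K n`.  For `c` take `s` from `sel_radius`: `Xo s ≤ 2 E / log (1/r) ≤ ε₂`.  `beta_le`:
  `|β ρ| ≤ ρ √(E/2π) ≤ ε ≤ 1/2` for `ρ ≤ s`.  `circ_w`: `‖w‖² ≤ 5 ε₂ ≤ 1/4` on the circle; `circ_sign` gives `σ` and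
  `|cc s - σ| ≤ 5 ε₂ ≤ ε`.  `cap_exists` with `ε₂`, `circ_P`: `E' ≤ E - ee + C (4 ε₂ + ε₂ + ε₂) + ε₂ ≤ E - ee + ε`.  `Z_same`.
-/

open MeasureTheory Filter Topology Set
open scoped ContDiff Real

noncomputable section

namespace GO3.Cap

theorem Z_same {c c' : Cf} {n : ℕ} {K s : ℝ} (hn : 2 ≤ n) (hc : c.Adm n) (hr : c.Rad) (hK : 1 ≤ K)
    (hE : c.E ≤ K * n ^ 2) (hs : 0 < s) (hs' : s ≤ rm K n) (hA : c'.A = c.A)
    (ho : ∀ z, s ≤ ‖z‖ → c'.w z = c.w z ∧ c'.h z = c.h z) (r : ℝ) (h0 : 0 ≤ r) :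
    c'.Z n r = c.Z n r := by
  have hb : ∀ ρ χ, c'.b ρ χ = c.b ρ χ := by
    intro ρ χ
    unfold Cf.b
    rw [hA]
  have hB : ∀ ρ χ, c'.B ρ χ = c.B ρ χ := by
    intro ρ χ
    unfold Cf.B
    simp only [hb]
  have ha : c'.aa n r = c.aa n r := by
    unfold Cf.aa Cf.beta
    rw [hB]
  unfold Cf.Z
  rw [ha]
  rcases le_or_gt s r with h | h
  · have hn' : ∀ χ, s ≤ ‖pt r χ‖ := by
      intro χ
      rw [norm_pt, abs_of_nonneg h0]
      exact h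
    have hcc : c'.cc n r = c.cc n r := by
      unfold Cf.cc
      simp only [fun χ => (ho (pt r χ) (hn' χ)).2]
    have hV : c'.V n r = c.V n r := by
      unfold Cf.V
      simp only [fun χ => (ho (pt r χ) (hn' χ)).1, hB]
    rw [hcc, hV]
  · have hp := (Cf.psi_small hn hc hr hK hE h0 (h.le.trans hs')).1
    rw [hp]
    simp

theorem onestep (K : ℝ) (hK : 1 ≤ K) (n : ℕ) (hn : 2 ≤ n) (ε : ℝ) (hε : 0 < ε) :
    ∃ r : ℝ, 0 < r ∧ r < 1 ∧ ∀ c : Cf, c.Adm n → c.Rad → c.E ≤ K * n ^ 2 →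
      ∃ s ∈ Icc (r ^ 2) r, ∃ σ : ℝ, (σ = 1 ∨ σ = -1) ∧ |c.cc n s - σ| ≤ ε ∧
        (∀ ρ, 0 ≤ ρ → ρ ≤ s → |c.beta n ρ| ≤ ε) ∧ ∃ c' : Cf, c'.Adm n ∧ c'.A = c.A ∧
        (∀ ρ, 0 ≤ ρ → c'.Z n ρ = c.Z n ρ) ∧ c'.h 0 = σ ∧ c'.E ≤ c.E - c.ee 0 s + ε := by
  obtain ⟨C, hC, hcap⟩ := cap_exists
  have hnr : (0 : ℝ) < n := by
    have : 0 < n := by omega
    exact_mod_cast this
  set E₀ : ℝ := K * n ^ 2 with hE₀
  have hE₀p : 0 < E₀ := by positivity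
  set ε' : ℝ := min ε (1 / 2) with hε'
  have hε'p : 0 < ε' := lt_min hε (by norm_num)
  have hε'1 : ε' ≤ ε := min_le_left _ _
  have hε'2 : ε' ≤ 1 / 2 := min_le_right _ _
  set ε₂ : ℝ := ε' / (4 * (6 * C + 1)) with hε₂
  have hε₂p : 0 < ε₂ := by positivity
  have e1 : (6 * C + 1) * ε₂ = ε' / 4 := by
    rw [hε₂]
    field_simp
  have e2 : 5 * ε₂ ≤ ε' := by nlinarith
  have e3 : 5 * ε₂ ≤ 1 / 4 := by nlinarith
  have hrm : 0 < rm K n := by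
    unfold rm
    positivity
  set q : ℝ := Real.sqrt (E₀ / (2 * π)) with hq
  have hq0 : 0 ≤ q := Real.sqrt_nonneg _
  obtain ⟨r, hr0, hr1, hr2, hr3, hr4, hr5⟩ : ∃ r : ℝ, 0 < r ∧ r < 1 ∧ r ≤ Real.exp (-(2 * E₀ / ε₂)) ∧
      r ≤ ε₂ / (E₀ + 1) ∧ r ≤ ε' / (q + 1) ∧ r ≤ rm K n := by
    refine ⟨min (1 / 2) (min (Real.exp (-(2 * E₀ / ε₂))) (min (ε₂ / (E₀ + 1)) (min (ε' / (q + 1)) (rm K n)))),
      ?_, ?_, ?_, ?_, ?_, ?_⟩
    · refine lt_min (by norm_num) (lt_min (Real.exp_pos _) (lt_min (by positivity) (lt_min (by positivity) hrm)))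
    · exact lt_of_le_of_lt (min_le_left _ _) (by norm_num)
    · exact (min_le_right _ _).trans (min_le_left _ _)
    · exact (min_le_right _ _).trans ((min_le_right _ _).trans (min_le_left _ _))
    · exact (min_le_right _ _).trans ((min_le_right _ _).trans ((min_le_right _ _).trans (min_le_left _ _)))
    · exact (min_le_right _ _).trans ((min_le_right _ _).trans ((min_le_right _ _).trans (min_le_right _ _)))
  refine ⟨r, hr0, hr1, fun c hc hrad hE => ?_⟩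
  have hE0 : 0 ≤ c.E := by
    unfold Cf.E
    have : 0 ≤ ∫ z, c.dens z := integral_nonneg fun z => c.dens_nonneg z
    linarith
  have hlog : 2 * E₀ / ε₂ ≤ Real.log (1 / r) := by
    rw [one_div, Real.log_inv]
    have h := Real.log_le_log hr0 hr2
    rw [Real.log_exp] at h
    linarith
  have hlogp : 0 < Real.log (1 / r) := lt_of_lt_of_le (by positivity) hlog
  obtain ⟨s, hs, hX⟩ := sel_radius hn hc hr0 hr1
  have hs0 : 0 < s := lt_of_lt_of_le (by positivity) hs.1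
  have hX2 : c.Xo s ≤ ε₂ := by
    refine hX.trans ?_
    rw [div_le_iff₀ hlogp]
    have h := mul_le_mul_of_nonneg_left hlog hε₂p.le
    have e : ε₂ * (2 * E₀ / ε₂) = 2 * E₀ := by field_simp
    rw [e] at h
    linarith
  have hbeta : ∀ ρ, 0 ≤ ρ → ρ ≤ s → |c.beta n ρ| ≤ ε' := by
    intro ρ h1 h2
    refine (Cf.beta_le hn hc hrad h1).trans ?_
    have h3 : Real.sqrt (c.E / (2 * π)) ≤ q := by
      rw [hq]
      exact Real.sqrt_le_sqrt (div_le_div_of_nonneg_right hE (by positivity))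
    have h4 : ρ * Real.sqrt (c.E / (2 * π)) ≤ r * q :=
      mul_le_mul (h2.trans hs.2) h3 (Real.sqrt_nonneg _) hr0.le
    have h5 : r * (q + 1) ≤ ε' := by
      rwa [le_div_iff₀ (by positivity)] at hr4
    nlinarith
  have hb : |c.beta n s| ≤ 1 / 2 := (hbeta s hs0.le le_rfl).trans hε'2
  have hw : ∀ χ, ‖c.w (pt s χ)‖ ^ 2 ≤ 5 * ε₂ := fun χ =>
    (circ_w hn hc hb χ).trans (by linarith)
  obtain ⟨σ, hσ, hpos, hcc⟩ := circ_sign hn hc e3 hw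
  have hw2 : ∀ χ, ‖c.w (pt s χ)‖ ≤ 1 / 2 := by
    intro χ
    have h1 := hw χ
    have h2 := norm_nonneg (c.w (pt s χ))
    nlinarith
  obtain ⟨c', ha', hA', ho', hh', hE'⟩ := hcap n hn c hc hrad s hs0 σ hσ hw2 hpos ε₂ hε₂p
  refine ⟨s, hs, σ, hσ, by linarith, fun ρ h1 h2 => (hbeta ρ h1 h2).trans hε'1, c', ha', hA', ?_, hh', ?_⟩
  · exact fun ρ hρ => Z_same hn hc hrad hK hE hs0 (hs.2.trans hr5) hA' ho' ρ hρ
  · have hP := circ_P hn hc hb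
    have h6 : s ^ 2 * (c.E + 1) ≤ ε₂ := by
      have h7 : r * (E₀ + 1) ≤ ε₂ := by
        rwa [le_div_iff₀ (by positivity)] at hr3
      have h8 : s ^ 2 ≤ r := by
        have h9 := hs.2
        nlinarith
      have h10 : s ^ 2 * (c.E + 1) ≤ r * (E₀ + 1) :=
        mul_le_mul h8 (by linarith) (by linarith) hr0.le
      linarith
    have h11 : C * ((∫ χ in (0 : ℝ)..2 * π, ‖c.w (pt s χ)‖ ^ 2) + c.Xo s + s ^ 2 * (c.E + 1)) ≤
        C * (6 * ε₂) := mul_le_mul_of_nonneg_left (by linarith) (by linarith)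
    nlinarith

end GO3.Cap
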