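import Pool.Agent.GO3.Pol

/-!
# GO3 / B / Pm: reparametrisation in polar coordinates (helper30)

`pm τ κ f z = τ |z| f (κ |z| z / |z|)`, so `pm τ κ f (r e^{iχ}) = τ r f (κ r e^{iχ})` for `r > 0`.

PROOFS.
* `pm_pt`: `‖pt r χ‖ = r` (`norm_pt`), `pt r χ / r = er χ` (`pt_eq`), `κ r * er χ = pt (κ r) χ`.
* `pm_smooth`: at `z ≠ 0` the norm is smooth (`contDiffAt_norm`), `z / ‖z‖` is smooth, composition and product.  Near `z = 0` the
  function is zero (`‖z‖ < a`).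
* `pm_dr`: the derivative of `r ↦ pm τ κ f (pt r χ)` at `r > 0` in two ways: chain rule with `hasDerivAt_pt_r`, and from
  `pm_pt` (valid in a neighbourhood of `r`): `τ' f (pt (κ r) χ) + τ κ' df (er χ)`.  `pm_dchi`: the same in `χ` with
  `hasDerivAt_pt_chi`.
* `pm_out`, `pm_zero`, `pm_rot`, `pm_star`, `norm_pm_le`: unfold.
-/

open MeasureTheory Filter Topology Set
open scoped ContDiff Real

noncomputable section

namespace GO3.Cap

variable {τ κ : ℝ → ℝ} {f : ℂ → ℂ} {a r χ : ℝ} {z : ℂ}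

/-- reparametrisation in polar coordinates -/
def pm (τ κ : ℝ → ℝ) (f : ℂ → ℂ) (z : ℂ) : ℂ :=
  (τ ‖z‖ : ℂ) * f ((κ ‖z‖ : ℂ) * (z / (‖z‖ : ℂ)))

theorem pm_pt (hr : 0 < r) : pm τ κ f (pt r χ) = (τ r : ℂ) * f (pt (κ r) χ) := by
  have h1 : ‖pt r χ‖ = r := by rw [norm_pt, abs_of_pos hr]
  have h2 : (r : ℂ) ≠ 0 := by exact_mod_cast hr.ne'
  unfold pm
  rw [h1, pt_eq r χ, mul_div_cancel_left₀ _ h2, pt_eq]

theorem pm_smooth (hτ : ContDiff ℝ ∞ τ) (hκ : ContDiff ℝ ∞ κ) (hf : ContDiff ℝ ∞ f) (ha : 0 < a)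
    (h0 : ∀ x, x ≤ a → τ x = 0) : ContDiff ℝ ∞ (pm τ κ f) := by
  rw [contDiff_iff_contDiffAt]
  intro z
  by_cases hz : z = 0
  · subst hz
    have h1 : pm τ κ f =ᶠ[𝓝 0] fun _ => (0 : ℂ) := by
      filter_upwards [Metric.ball_mem_nhds (0 : ℂ) ha] with w hw
      rw [mem_ball_zero_iff] at hw
      unfold pm
      rw [h0 _ hw.le]
      simp
    exact contDiffAt_const.congr_of_eventuallyEq h1
  · have hn : ContDiffAt ℝ ∞ (fun w : ℂ => ‖w‖) z := contDiffAt_norm ℝ hz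
    have hn0 : ‖z‖ ≠ 0 := norm_ne_zero_iff.2 hz
    have hnC : ContDiffAt ℝ ∞ (fun w : ℂ => (‖w‖ : ℂ)) z :=
      Complex.ofRealCLM.contDiff.contDiffAt.comp z hn
    have h1 : ContDiffAt ℝ ∞ (fun w : ℂ => (τ ‖w‖ : ℂ)) z :=
      Complex.ofRealCLM.contDiff.contDiffAt.comp z (hτ.contDiffAt.comp z hn)
    have h2 : ContDiffAt ℝ ∞ (fun w : ℂ => (κ ‖w‖ : ℂ)) z :=
      Complex.ofRealCLM.contDiff.contDiffAt.comp z (hκ.contDiffAt.comp z hn)
    have h3 : ContDiffAt ℝ ∞ (fun w : ℂ => w / (‖w‖ : ℂ)) z := by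
      have h4 : ContDiffAt ℝ ∞ (fun w : ℂ => (‖w‖⁻¹ : ℝ) • w) z :=
        (hn.inv hn0).smul contDiffAt_id
      refine h4.congr_of_eventuallyEq (Filter.Eventually.of_forall fun w => ?_)
      show w / (‖w‖ : ℂ) = (‖w‖⁻¹ : ℝ) • w
      rw [Complex.real_smul, Complex.ofReal_inv, div_eq_mul_inv, mul_comm]
    exact h1.mul (hf.contDiffAt.comp z (h2.mul h3))

theorem pm_dr (hτ : ContDiff ℝ ∞ τ) (hκ : ContDiff ℝ ∞ κ) (hf : ContDiff ℝ ∞ f) (ha : 0 < a)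
    (h0 : ∀ x, x ≤ a → τ x = 0) (hr : 0 < r) :
    fderiv ℝ (pm τ κ f) (pt r χ) (er χ) = ((deriv τ r : ℝ) : ℂ) * f (pt (κ r) χ) +
      ((τ r * deriv κ r : ℝ) : ℂ) * fderiv ℝ f (pt (κ r) χ) (er χ) := by
  have hs : Differentiable ℝ (pm τ κ f) := (pm_smooth hτ hκ hf ha h0).differentiable (by simp)
  have hF : HasFDerivAt (pm τ κ f) (fderiv ℝ (pm τ κ f) (pt r χ)) ((fun x => pt x χ) r) :=
    (hs (pt r χ)).hasFDerivAt
  have hA : HasDerivAt (fun x => pm τ κ f (pt x χ)) (fderiv ℝ (pm τ κ f) (pt r χ) (er χ)) r := by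
    have := hF.comp_hasDerivAt r (hasDerivAt_pt_r r χ)
    exact this
  have hκd : HasDerivAt κ (deriv κ r) r := (hκ.differentiable (by simp) r).hasDerivAt
  have hτd : HasDerivAt (fun x => (τ x : ℂ)) ((deriv τ r : ℝ) : ℂ) r :=
    ((hτ.differentiable (by simp) r).hasDerivAt).ofReal_comp
  have hpt : HasDerivAt (fun x => pt (κ x) χ) ((deriv κ r : ℝ) • er χ) r := by
    have := (hasDerivAt_pt_r (κ r) χ).scomp r hκd
    exact this
  have hG : HasFDerivAt f (fderiv ℝ f (pt (κ r) χ)) ((fun x => pt (κ x) χ) r) :=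
    (hf.differentiable (by simp) (pt (κ r) χ)).hasFDerivAt
  have hB0 : HasDerivAt (fun x => f (pt (κ x) χ)) (fderiv ℝ f (pt (κ r) χ) ((deriv κ r : ℝ) • er χ)) r := by
    have := hG.comp_hasDerivAt r hpt
    exact this
  have hB := hτd.mul hB0
  have he : (fun x => pm τ κ f (pt x χ)) =ᶠ[𝓝 r] fun x => (τ x : ℂ) * f (pt (κ x) χ) := by
    filter_upwards [lt_mem_nhds hr] with x hx
    exact pm_pt hx
  have hC := hA.congr_of_eventuallyEq he.symm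
  have := hC.unique hB
  rw [this, map_smul, Complex.real_smul]
  push_cast
  ring

theorem pm_dchi (hτ : ContDiff ℝ ∞ τ) (hκ : ContDiff ℝ ∞ κ) (hf : ContDiff ℝ ∞ f) (ha : 0 < a)
    (h0 : ∀ x, x ≤ a → τ x = 0) (hr : 0 < r) :
    fderiv ℝ (pm τ κ f) (pt r χ) (Complex.I * pt r χ) =
      (τ r : ℂ) * fderiv ℝ f (pt (κ r) χ) (Complex.I * pt (κ r) χ) := by
  have hs : Differentiable ℝ (pm τ κ f) := (pm_smooth hτ hκ hf ha h0).differentiable (by simp)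
  have hF : HasFDerivAt (pm τ κ f) (fderiv ℝ (pm τ κ f) (pt r χ)) ((fun x => pt r x) χ) :=
    (hs (pt r χ)).hasFDerivAt
  have hA : HasDerivAt (fun x => pm τ κ f (pt r x))
      (fderiv ℝ (pm τ κ f) (pt r χ) (Complex.I * pt r χ)) χ := by
    have := hF.comp_hasDerivAt χ (hasDerivAt_pt_chi r χ)
    exact this
  have hG : HasFDerivAt f (fderiv ℝ f (pt (κ r) χ)) ((fun x => pt (κ r) x) χ) :=
    (hf.differentiable (by simp) (pt (κ r) χ)).hasFDerivAt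
  have hB0 : HasDerivAt (fun x => f (pt (κ r) x))
      (fderiv ℝ f (pt (κ r) χ) (Complex.I * pt (κ r) χ)) χ := by
    have := hG.comp_hasDerivAt χ (hasDerivAt_pt_chi (κ r) χ)
    exact this
  have hB := hB0.const_mul (τ r : ℂ)
  have he : (fun x => pm τ κ f (pt r x)) = fun x => (τ r : ℂ) * f (pt (κ r) x) := by
    funext x
    exact pm_pt hr
  rw [he] at hA
  exact hA.unique hB

theorem pm_out (hz : z ≠ 0) (hτ : τ ‖z‖ = 1) (hκ : κ ‖z‖ = ‖z‖) : pm τ κ f z = f z := by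
  have h2 : (‖z‖ : ℂ) ≠ 0 := by exact_mod_cast norm_ne_zero_iff.2 hz
  unfold pm
  rw [hτ, hκ, mul_div_cancel₀ _ h2]
  simp

theorem pm_zero (hτ : τ ‖z‖ = 0) : pm τ κ f z = 0 := by
  unfold pm
  rw [hτ]
  simp

theorem pm_rot {u : ℂ} (hu : ‖u‖ = 1) (hf : ∀ z, f (u * z) = u * f z) (z : ℂ) :
    pm τ κ f (u * z) = u * pm τ κ f z := by
  unfold pm
  rw [norm_mul, hu, one_mul, mul_div_assoc, mul_left_comm, hf]
  ring

theorem pm_star (hf : ∀ z, f (star z) = star (f z)) (z : ℂ) :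
    pm τ κ f (star z) = star (pm τ κ f z) := by
  unfold pm
  have h1 : ‖star z‖ = ‖z‖ := norm_star z
  have h2 : ∀ x : ℝ, star (x : ℂ) = (x : ℂ) := fun x => Complex.conj_ofReal x
  rw [h1, star_mul', h2, ← hf, star_mul', star_div₀, h2, h2]

/-- norm bound at `z ≠ 0`: the argument of `f` has norm `|κ |z||` -/
theorem norm_pm_le (h1 : ∀ x, 0 ≤ τ x ∧ τ x ≤ 1) (hz : z ≠ 0) :
    ‖pm τ κ f z‖ ≤ ‖f ((κ ‖z‖ : ℂ) * (z / (‖z‖ : ℂ)))‖ ∧
    ‖(κ ‖z‖ : ℂ) * (z / (‖z‖ : ℂ))‖ = |κ ‖z‖| := by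
  have h2 : ‖z‖ ≠ 0 := norm_ne_zero_iff.2 hz
  constructor
  · unfold pm
    rw [norm_mul, Complex.norm_real, Real.norm_eq_abs, abs_of_nonneg (h1 _).1]
    exact mul_le_of_le_one_left (norm_nonneg _) (h1 _).2
  · rw [norm_mul, Complex.norm_real, Real.norm_eq_abs, norm_div, Complex.norm_real,
      Real.norm_eq_abs, abs_of_nonneg (norm_nonneg z), div_self h2, mul_one]

end GO3.Cap
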